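import Mathlib

/-!
# Leonard systems: definitions
-/

set_option autoImplicit false

namespace Q7.Leonard

variable {K 𝒜 : Type*} [Field K] [Ring 𝒜] [Algebra K 𝒜] {d : ℕ}

/-- `X` is multiplicity-free with (mutually distinct) eigenvalues `θ 0, …, θ d` in `K`. (It is
used for algebras `𝒜` isomorphic to the algebra of `d + 1` by `d + 1` matrices over `K`.) -/
def MultiplicityFree (X : 𝒜) (θ : Fin (d + 1) → K) : Prop :=
  Function.Injective θ ∧ ∀ i, θ i ∈ spectrum K X

/-- The primitive idempotent `E i = ∏ j ≠ i, (X - θ j) / (θ i - θ j)` of `X`. -/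
noncomputable def primIdem (X : 𝒜) (θ : Fin (d + 1) → K) (i : Fin (d + 1)) : 𝒜 :=
  Polynomial.aeval X (Lagrange.basis Finset.univ θ i)

/-- `(A; A*; {E i}; {E* i})` is a Leonard system, where `E i = primIdem A θ i` is the ordering of
the primitive idempotents of `A` given by the ordering `θ 0, …, θ d` of the eigenvalues of `A`, and
`E* i = primIdem As θs i` is the ordering of the primitive idempotents of `A* = As` given by the
ordering `θs 0, …, θs d` of the eigenvalues of `A*`. -/
structure IsLeonardSystem (A As : 𝒜) (θ θs : Fin (d + 1) → K) : Prop where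
  /-- `A` is multiplicity-free with eigenvalues `θ i`. -/
  mf : MultiplicityFree A θ
  /-- `A*` is multiplicity-free with eigenvalues `θs i`. -/
  mfs : MultiplicityFree As θs
  /-- `E i A* E j = 0` if `|i - j| > 1`. -/
  zero : ∀ i j : Fin (d + 1), ((i : ℕ) + 1 < j ∨ (j : ℕ) + 1 < i) →
    primIdem A θ i * As * primIdem A θ j = 0
  /-- `E i A* E j ≠ 0` if `|i - j| = 1`. -/
  ne_zero : ∀ i j : Fin (d + 1), ((i : ℕ) + 1 = j ∨ (j : ℕ) + 1 = i) →
    primIdem A θ i * As * primIdem A θ j ≠ 0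
  /-- `E* i A E* j = 0` if `|i - j| > 1`. -/
  zero_s : ∀ i j : Fin (d + 1), ((i : ℕ) + 1 < j ∨ (j : ℕ) + 1 < i) →
    primIdem As θs i * A * primIdem As θs j = 0
  /-- `E* i A E* j ≠ 0` if `|i - j| = 1`. -/
  ne_zero_s : ∀ i j : Fin (d + 1), ((i : ℕ) + 1 = j ∨ (j : ℕ) + 1 = i) →
    primIdem As θs i * A * primIdem As θs j ≠ 0

end Q7.Leonard
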