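import Mathlib
import Pool.Agent.Q7.LeonardDefs

/-!
# Leonard systems: basic facts

For a Leonard system in `End V`, `dim V = d + 1`, we choose eigenbases.
-/

set_option autoImplicit false

namespace Q7.Leonard

open Module Polynomial

variable {K V : Type*} [Field K] [AddCommGroup V] [Module K V] {d : ℕ}

/-- eigenvectors of a multiplicity-free map -/
theorem MultiplicityFree.exists_basis {X : End K V} {θ : Fin (d + 1) → K}
    (h : MultiplicityFree X θ) (hV : finrank K V = d + 1) :
    ∃ v : Basis (Fin (d + 1)) K V, ∀ i, X (v i) = θ i • v i := by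
  have : FiniteDimensional K V := FiniteDimensional.of_finrank_pos (by omega)
  have h1 : ∀ i, ∃ v, X.HasEigenvector (θ i) v := fun i =>
    (End.hasEigenvalue_iff_mem_spectrum.2 (h.2 i)).exists_hasEigenvector
  choose v hv using h1
  have hli : LinearIndependent K v := End.eigenvectors_linearIndependent' X θ h.1 v hv
  refine ⟨basisOfLinearIndependentOfCardEqFinrank hli (by simp [hV]), fun i => ?_⟩
  rw [coe_basisOfLinearIndependentOfCardEqFinrank]
  exact (hv i).apply_eq_smul

/-- action of the primitive idempotents on an eigenbasis -/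
theorem primIdem_apply {X : End K V} {θ : Fin (d + 1) → K} (hθ : Function.Injective θ)
    {v : Fin (d + 1) → V} (hv : ∀ i, X (v i) = θ i • v i) (i j : Fin (d + 1)) :
    primIdem X θ i (v j) = if i = j then v j else 0 := by
  by_cases h0 : v j = 0
  · simp [h0]
  have he : X.HasEigenvector (θ j) (v j) := ⟨End.mem_eigenspace_iff.2 (hv j), h0⟩
  unfold primIdem
  rw [End.aeval_apply_of_hasEigenvector he]
  split_ifs with h
  · subst h
    rw [Lagrange.eval_basis_self hθ.injOn (Finset.mem_univ _), one_smul]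
  · rw [Lagrange.eval_basis_of_ne h (Finset.mem_univ _), zero_smul]

theorem primIdem_basis {X : End K V} {θ : Fin (d + 1) → K} (hθ : Function.Injective θ)
    {v : Basis (Fin (d + 1)) K V} (hv : ∀ i, X (v i) = θ i • v i) (i : Fin (d + 1)) (x : V) :
    primIdem X θ i x = v.repr x i • v i := by
  conv_lhs => rw [← v.sum_repr x]
  rw [map_sum, Finset.sum_eq_single i]
  · rw [map_smul, primIdem_apply hθ hv, if_pos rfl]
  · intro j _ hj
    rw [map_smul, primIdem_apply hθ hv, if_neg (Ne.symm hj), smul_zero]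
  · simp

theorem range_primIdem {X : End K V} {θ : Fin (d + 1) → K} (hθ : Function.Injective θ)
    {v : Basis (Fin (d + 1)) K V} (hv : ∀ i, X (v i) = θ i • v i) (i : Fin (d + 1)) :
    LinearMap.range (primIdem X θ i) = Submodule.span K {v i} := by
  ext x
  rw [Submodule.mem_span_singleton, LinearMap.mem_range]
  constructor
  · rintro ⟨y, rfl⟩
    exact ⟨_, (primIdem_basis hθ hv i y).symm⟩
  · rintro ⟨a, rfl⟩
    exact ⟨a • v i, by rw [map_smul, primIdem_apply hθ hv, if_pos rfl]⟩

/-- matrix entries of `Y` in the eigenbasis of `X` -/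
theorem entry_eq {X Y : End K V} {θ : Fin (d + 1) → K} (hθ : Function.Injective θ)
    {v : Basis (Fin (d + 1)) K V} (hv : ∀ i, X (v i) = θ i • v i) (i j : Fin (d + 1)) :
    primIdem X θ i * Y * primIdem X θ j = 0 ↔ v.repr (Y (v j)) i = 0 := by
  constructor
  · intro h
    have h1 := LinearMap.congr_fun h (v j)
    rw [Module.End.mul_apply, Module.End.mul_apply, primIdem_apply hθ hv, if_pos rfl,
      primIdem_basis hθ hv, LinearMap.zero_apply] at h1
    exact (smul_eq_zero.1 h1).resolve_right (v.ne_zero i)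
  · intro h
    ext x
    rw [Module.End.mul_apply, Module.End.mul_apply, primIdem_basis hθ hv j, map_smul,
      primIdem_basis hθ hv, map_smul, LinearMap.zero_apply, Finsupp.smul_apply, h, smul_zero,
      zero_smul]

/-- An operator `Y` which is irreducible tridiagonal in the basis `v`. -/
structure IrrTri (Y : End K V) (v : Basis (Fin (d + 1)) K V) : Prop where
  zero : ∀ i j : Fin (d + 1), ((i : ℕ) + 1 < j ∨ (j : ℕ) + 1 < i) → v.repr (Y (v j)) i = 0
  ne_zero : ∀ i j : Fin (d + 1), ((i : ℕ) + 1 = j ∨ (j : ℕ) + 1 = i) → v.repr (Y (v j)) i ≠ 0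

theorem IsLeonardSystem.irrTri {A As : End K V} {θ θs : Fin (d + 1) → K}
    (h : IsLeonardSystem A As θ θs) {v : Basis (Fin (d + 1)) K V}
    (hv : ∀ i, A (v i) = θ i • v i) : IrrTri As v :=
  ⟨fun i j hij => (entry_eq h.mf.1 hv i j).1 (h.zero i j hij),
    fun i j hij => fun h0 => h.ne_zero i j hij ((entry_eq h.mf.1 hv i j).2 h0)⟩

theorem IsLeonardSystem.irrTri_s {A As : End K V} {θ θs : Fin (d + 1) → K}
    (h : IsLeonardSystem A As θ θs) {w : Basis (Fin (d + 1)) K V}
    (hw : ∀ i, As (w i) = θs i • w i) : IrrTri A w :=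
  ⟨fun i j hij => (entry_eq h.mfs.1 hw i j).1 (h.zero_s i j hij),
    fun i j hij => fun h0 => h.ne_zero_s i j hij ((entry_eq h.mfs.1 hw i j).2 h0)⟩

/-- expansion of `Y v_j` -/
theorem IrrTri.apply_castSucc {Y : End K V} {v : Basis (Fin (d + 1)) K V} (h : IrrTri Y v)
    (j : Fin (d + 1)) (hj : (j : ℕ) < d) : ∃ c : K, c ≠ 0 ∧
      Y (v j) - c • v ⟨j + 1, by omega⟩ ∈ Submodule.span K (v '' {i | (i : ℕ) ≤ j}) := by
  refine ⟨v.repr (Y (v j)) ⟨j + 1, by omega⟩, h.ne_zero _ _ (Or.inr rfl), ?_⟩
  rw [v.mem_span_image]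
  intro i hi
  rw [Finset.mem_coe, Finsupp.mem_support_iff] at hi
  simp only [map_sub, map_smul, Basis.repr_self, Finsupp.sub_apply, Finsupp.smul_apply,
    smul_eq_mul] at hi
  simp only [Set.mem_ofPred_eq]
  by_contra hcon
  push Not at hcon
  apply hi
  rcases Nat.lt_or_ge ((j : ℕ) + 1) i with h1 | h1
  · rw [h.zero i j (Or.inr h1), Finsupp.single_apply, if_neg, mul_zero, sub_zero]
    intro h2
    have := congrArg Fin.val h2
    simp at this
    omega
  · have h2 : i = ⟨j + 1, by omega⟩ := Fin.ext (by simp; omega)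
    rw [h2, Finsupp.single_apply, if_pos rfl, mul_one, sub_self]

/-- the span of `v 0, …, v r` consists of the `f(Y) v 0` with `deg f ≤ r`. -/
theorem IrrTri.exists_poly {Y : End K V} {v : Basis (Fin (d + 1)) K V} (h : IrrTri Y v) :
    ∀ r : ℕ, ∀ x ∈ Submodule.span K (v '' {i | (i : ℕ) ≤ r}),
      ∃ f : K[X], f.degree < (r + 1 : ℕ) ∧ x = aeval Y f (v 0) := by
  have key : ∀ r : ℕ, ∀ j : Fin (d + 1), (j : ℕ) ≤ r →
      ∃ f : K[X], f.degree < (r + 1 : ℕ) ∧ v j = aeval Y f (v 0) := by
    intro r
    induction r with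
    | zero =>
      intro j hj
      refine ⟨1, by simp, ?_⟩
      have : j = 0 := Fin.ext (by simpa using hj)
      rw [this, map_one, Module.End.one_apply]
    | succ r ih =>
      intro j hj
      have ih' : ∀ x ∈ Submodule.span K (v '' {i | (i : ℕ) ≤ r}),
          ∃ f : K[X], f.degree < (r + 1 : ℕ) ∧ x = aeval Y f (v 0) := by
        intro x hx
        induction hx using Submodule.span_induction with
        | mem x hx =>
          obtain ⟨i, hi, rfl⟩ := hx
          exact ih i hi
        | zero => exact ⟨0, by simp, by simp⟩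
        | add x y _ _ hx hy =>
          obtain ⟨f, hf, rfl⟩ := hx
          obtain ⟨g, hg, rfl⟩ := hy
          exact ⟨f + g, lt_of_le_of_lt (degree_add_le _ _) (max_lt hf hg), by
            rw [map_add, LinearMap.add_apply]⟩
        | smul a x _ hx =>
          obtain ⟨f, hf, rfl⟩ := hx
          exact ⟨a • f, lt_of_le_of_lt (degree_smul_le _ _) hf, by
            rw [map_smul, LinearMap.smul_apply]⟩
      rcases Nat.lt_or_ge (j : ℕ) (r + 1) with h1 | h1
      · obtain ⟨f, hf, h2⟩ := ih j (by omega)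
        exact ⟨f, lt_of_lt_of_le hf (by exact_mod_cast Nat.le_succ _), h2⟩
      · have hjr : (j : ℕ) = r + 1 := by omega
        obtain ⟨c, hc, h2⟩ := h.apply_castSucc ⟨r, by omega⟩ (by simp; omega)
        obtain ⟨f, hf, h3⟩ := ih' _ h2
        obtain ⟨g, hg, h4⟩ := ih ⟨r, by omega⟩ le_rfl
        have hj' : (⟨(⟨r, by omega⟩ : Fin (d + 1)) + 1, by simp; omega⟩ : Fin (d + 1)) = j :=
          Fin.ext (by simp; omega)
        rw [hj'] at h3
        refine ⟨c⁻¹ • (X * g - f), ?_, ?_⟩
        · refine lt_of_le_of_lt (degree_smul_le _ _) ?_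
          refine lt_of_le_of_lt (degree_sub_le _ _) (max_lt ?_ ?_)
          · rw [degree_mul, degree_X]
            have : (r + 1 : ℕ) + 1 = ((r + 1 + 1 : ℕ) : WithBot ℕ) := by norm_cast
            rw [← this, add_comm]
            exact WithBot.add_lt_add_right (by simp) hg
          · exact lt_of_lt_of_le hf (by exact_mod_cast Nat.le_succ _)
        · rw [map_smul, map_sub, map_mul, aeval_X, LinearMap.smul_apply, LinearMap.sub_apply,
            Module.End.mul_apply, ← h4, ← h3, sub_sub_cancel, smul_smul, inv_mul_cancel₀ hc,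
            one_smul]
  intro r x hx
  induction hx using Submodule.span_induction with
  | mem x hx =>
    obtain ⟨i, hi, rfl⟩ := hx
    exact key r i hi
  | zero => exact ⟨0, by simp, by simp⟩
  | add x y _ _ hx hy =>
    obtain ⟨f, hf, rfl⟩ := hx
    obtain ⟨g, hg, rfl⟩ := hy
    exact ⟨f + g, lt_of_le_of_lt (degree_add_le _ _) (max_lt hf hg), by
      rw [map_add, LinearMap.add_apply]⟩
  | smul a x _ hx =>
    obtain ⟨f, hf, rfl⟩ := hx
    exact ⟨a • f, lt_of_le_of_lt (degree_smul_le _ _) hf, by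
      rw [map_smul, LinearMap.smul_apply]⟩

theorem repr_aeval {X : End K V} {θ : Fin (d + 1) → K}
    {v : Basis (Fin (d + 1)) K V} (hv : ∀ i, X (v i) = θ i • v i) (f : K[X]) (x : V)
    (j : Fin (d + 1)) : v.repr (aeval X f x) j = f.eval (θ j) * v.repr x j := by
  have h1 : ∀ i, aeval X f (v i) = f.eval (θ i) • v i := fun i =>
    End.aeval_apply_of_hasEigenvector ⟨End.mem_eigenspace_iff.2 (hv i), v.ne_zero i⟩
  conv_lhs => rw [← v.sum_repr x]
  simp only [map_sum, map_smul, h1, Finsupp.coe_finsetSum, Finset.sum_apply, Finsupp.smul_apply,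
    Basis.repr_self, smul_eq_mul]
  rw [Finset.sum_eq_single j]
  · simp; ring
  · intro i _ hi
    rw [Finsupp.single_apply, if_neg hi]; simp
  · simp

/-- no `E_j` kills the first eigenvector of the dual map -/
theorem repr_ne_zero {X : End K V} {θ : Fin (d + 1) → K}
    {v w : Basis (Fin (d + 1)) K V} (hv : ∀ i, X (v i) = θ i • v i) (h : IrrTri X w)
    (j : Fin (d + 1)) : v.repr (w 0) j ≠ 0 := by
  intro h0
  have h1 : ∀ x : V, v.repr x j = 0 := by
    intro x
    have hx : x ∈ Submodule.span K (w '' {i | (i : ℕ) ≤ d}) := by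
      have : (w '' {i | (i : ℕ) ≤ d}) = Set.range w := by
        have : {i : Fin (d + 1) | (i : ℕ) ≤ d} = Set.univ := by
          ext i; simp; omega
        rw [this, Set.image_univ]
      rw [this, w.span_eq]
      trivial
    obtain ⟨f, -, rfl⟩ := h.exists_poly d x hx
    rw [repr_aeval hv, h0, mul_zero]
  have := h1 (v j)
  simp at this

end Q7.Leonard
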