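import Mathlib
import Pool.Agent.Q7.LeonardDefs
import Pool.Agent.Q7.LeonardBasic

/-!
# Leonard systems: generation by primitive idempotents
-/

set_option autoImplicit false

namespace Q7.Leonard

open Module Polynomial

variable {K V : Type*} [Field K] [AddCommGroup V] [Module K V] {d : ℕ}

/-- reversing the basis -/
theorem IrrTri.rev {Y : End K V} {v : Basis (Fin (d + 1)) K V} (h : IrrTri Y v) :
    IrrTri Y (v.reindex Fin.revPerm) := by
  constructor
  · intro i j hij
    have := h.zero i.rev j.rev (by simp only [Fin.val_rev]; omega)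
    simpa using this
  · intro i j hij
    have := h.ne_zero i.rev j.rev (by simp only [Fin.val_rev]; omega)
    simpa using this

/-- the last coordinate of an eigenvector is nonzero -/
theorem IrrTri.last_ne_zero {Y : End K V} {v : Basis (Fin (d + 1)) K V} (h : IrrTri Y v)
    {u : V} {μ : K} (hu : Y u = μ • u) (hu0 : u ≠ 0) : v.repr u (Fin.last d) ≠ 0 := by
  intro h0
  apply hu0
  have hY : ∀ i, v.repr (Y u) i = ∑ j, v.repr u j * v.repr (Y (v j)) i := by
    intro i
    conv_lhs => rw [← v.sum_repr u]
    simp only [map_sum, map_smul, Finsupp.coe_finsetSum, Finset.sum_apply, Finsupp.smul_apply,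
      smul_eq_mul]
  have key : ∀ m : ℕ, ∀ j : Fin (d + 1), d ≤ (j : ℕ) + m → v.repr u j = 0 := by
    intro m
    induction m with
    | zero =>
      intro j hj
      have : j = Fin.last d := Fin.ext (by simp; omega)
      rw [this, h0]
    | succ m ih =>
      intro j hj
      rcases Nat.lt_or_ge d ((j : ℕ) + m + 1) with h1 | h1
      · exact ih j (by omega)
      rcases Nat.lt_or_ge (j : ℕ) d with hjd | hjd
      swap
      · exact ih j (by omega)
      have h2 := hY ⟨j + 1, by omega⟩
      rw [hu, map_smul, Finsupp.smul_apply, ih ⟨j + 1, by omega⟩ (by simp; omega), smul_zero,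
        Finset.sum_eq_single j] at h2
      · exact (mul_eq_zero.1 h2.symm).resolve_right (h.ne_zero _ _ (Or.inr rfl))
      · intro l _ hl
        rcases lt_trichotomy (l : ℕ) j with h3 | h3 | h3
        · rw [h.zero _ _ (Or.inr (by simp; omega)), mul_zero]
        · exact absurd (Fin.ext h3) hl
        · rw [ih l (by omega), zero_mul]
      · simp
  have hz : v.repr u = 0 := Finsupp.ext fun j => key d j (by omega)
  simpa using hz

theorem IrrTri.first_ne_zero {Y : End K V} {v : Basis (Fin (d + 1)) K V} (h : IrrTri Y v)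
    {u : V} {μ : K} (hu : Y u = μ • u) (hu0 : u ≠ 0) : v.repr u 0 ≠ 0 := by
  have := h.rev.last_ne_zero hu hu0
  simpa using this

/-- zero intersections, in terms of eigenbases -/
theorem zero_inter {X : End K V} {θ : Fin (d + 1) → K} (hθ : Function.Injective θ)
    {v w : Basis (Fin (d + 1)) K V} (hv : ∀ i, X (v i) = θ i • v i) (hT : IrrTri X w)
    (r : ℕ) (S : Finset (Fin (d + 1))) (hS : r + 1 ≤ S.card) (x : V)
    (h1 : ∀ i : Fin (d + 1), r < (i : ℕ) → w.repr x i = 0) (h2 : ∀ j ∈ S, v.repr x j = 0) :
    x = 0 := by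
  classical
  have h1' : x ∈ Submodule.span K (w '' {i | (i : ℕ) ≤ r}) := by
    rw [w.mem_span_image]
    intro i hi
    rw [Finset.mem_coe, Finsupp.mem_support_iff] at hi
    by_contra hcon
    exact hi (h1 i (by simpa using hcon))
  obtain ⟨f, hf, rfl⟩ := hT.exists_poly r x h1'
  have h3 : ∀ j ∈ S, f.eval (θ j) = 0 := by
    intro j hj
    have h4 := h2 j hj
    rw [repr_aeval hv] at h4
    exact (mul_eq_zero.1 h4).resolve_right (repr_ne_zero hv hT j)
  have hf0 : f = 0 := by
    refine eq_zero_of_degree_lt_of_eval_finset_eq_zero (S.image θ) ?_ ?_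
    · rw [Finset.card_image_of_injective _ hθ]
      exact lt_of_lt_of_le hf (by exact_mod_cast hS)
    · intro y hy
      obtain ⟨j, hj, rfl⟩ := Finset.mem_image.1 hy
      exact h3 j hj
  rw [hf0, map_zero, LinearMap.zero_apply]

/-- irreducibility -/
theorem invariant_eq {A As : End K V} {θ θs : Fin (d + 1) → K}
    (h : IsLeonardSystem A As θ θs) {v w : Basis (Fin (d + 1)) K V}
    (hv : ∀ i, A (v i) = θ i • v i) (hw : ∀ i, As (w i) = θs i • w i) (r : ℕ) (hr : r ≤ d)
    (U : Submodule K V)
    (hU1 : ∀ i : Fin (d + 1), (i : ℕ) ≤ r → ∀ u ∈ U, primIdem As θs i u ∈ U)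
    (hU2 : ∀ j : Fin (d + 1), r ≤ (j : ℕ) → ∀ u ∈ U, primIdem A θ j u ∈ U) :
    U = ⊥ ∨ U = ⊤ := by
  classical
  have hAw : IrrTri A w := h.irrTri_s hw
  have hAv : IrrTri As v := h.irrTri hv
  have m1 : ∀ i : Fin (d + 1), (i : ℕ) ≤ r → ∀ u ∈ U, w.repr u i ≠ 0 → w i ∈ U := by
    intro i hi u hu hne
    have := hU1 i hi u hu
    rw [primIdem_basis h.mfs.1 hw] at this
    exact (Submodule.smul_mem_iff U hne).1 this
  have m2 : ∀ j : Fin (d + 1), r ≤ (j : ℕ) → ∀ u ∈ U, v.repr u j ≠ 0 → v j ∈ U := by
    intro j hj u hu hne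
    have := hU2 j hj u hu
    rw [primIdem_basis h.mf.1 hv] at this
    exact (Submodule.smul_mem_iff U hne).1 this
  by_cases h0 : w 0 ∈ U
  · right
    have a1 : ∀ j : Fin (d + 1), r ≤ (j : ℕ) → v j ∈ U := fun j hj =>
      m2 j hj _ h0 (repr_ne_zero hv hAw j)
    have a2 : v (Fin.last d) ∈ U := a1 _ (by simpa using hr)
    have a3 : ∀ i : Fin (d + 1), (i : ℕ) ≤ r → w i ∈ U := by
      intro i hi
      refine m1 i hi _ a2 ?_
      have := repr_ne_zero hw hAv.rev i
      simpa using this
    -- dimension count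
    have hfin : FiniteDimensional K V := Module.Basis.finiteDimensional_of_finite v
    set P := Submodule.span K (w '' {i | (i : ℕ) ≤ r}) with hP
    set Q := Submodule.span K (v '' {j | r < (j : ℕ)}) with hQ
    have hPU : P ≤ U := by
      rw [hP, Submodule.span_le]
      rintro _ ⟨i, hi, rfl⟩
      exact a3 i hi
    have hQU : Q ≤ U := by
      rw [hQ, Submodule.span_le]
      rintro _ ⟨i, hi, rfl⟩
      exact a1 i (le_of_lt hi)
    have hPQ : P ⊓ Q = ⊥ := by
      rw [eq_bot_iff]
      rintro x ⟨hx1, hx2⟩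
      rw [SetLike.mem_coe, hP, w.mem_span_image] at hx1
      rw [SetLike.mem_coe, hQ, v.mem_span_image] at hx2
      rw [Submodule.mem_bot]
      refine zero_inter h.mf.1 hv hAw r (Finset.univ.filter fun j : Fin (d + 1) => (j : ℕ) ≤ r)
        ?_ x ?_ ?_
      · have : (Finset.univ.filter fun j : Fin (d + 1) => (j : ℕ) ≤ r) =
            Finset.Iic (⟨r, by omega⟩ : Fin (d + 1)) := by
          ext j; simp [Fin.le_def]
        rw [this, Fin.card_Iic]
      · intro i hi
        by_contra hcon
        have := hx1 (Finsupp.mem_support_iff.2 hcon)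
        simp at this
        omega
      · intro j hj
        by_contra hcon
        have := hx2 (Finsupp.mem_support_iff.2 hcon)
        simp at this hj
        omega
    have c1 : finrank K P = r + 1 := by
      rw [hP, Set.image_eq_range, finrank_span_eq_card]
      · rw [Fintype.card_of_subtype (Finset.Iic (⟨r, by omega⟩ : Fin (d + 1))), Fin.card_Iic]
        intro x
        simp [Fin.le_def]
      · exact w.linearIndependent.comp _ Subtype.val_injective
    have c2 : finrank K Q = d - r := by
      rw [hQ, Set.image_eq_range, finrank_span_eq_card]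
      · rw [Fintype.card_of_subtype (Finset.Ioi (⟨r, by omega⟩ : Fin (d + 1))), Fin.card_Ioi]
        · simp
        · intro x
          simp [Fin.lt_def]
      · exact v.linearIndependent.comp _ Subtype.val_injective
    have c3 := Submodule.finrank_sup_add_finrank_inf_eq P Q
    rw [hPQ, finrank_bot, c1, c2] at c3
    have c4 : finrank K V = d + 1 := by
      rw [finrank_eq_card_basis v, Fintype.card_fin]
    have c5 : P ⊔ Q = ⊤ := Submodule.eq_top_of_finrank_eq (by omega)
    exact eq_top_iff.2 (c5 ▸ sup_le hPU hQU)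
  · left
    have b0 : v (Fin.last d) ∉ U := by
      intro hcon
      refine h0 (m1 0 (by simp) _ hcon ?_)
      exact hAw.first_ne_zero (hv _) (v.ne_zero _)
    have b1 : ∀ i : Fin (d + 1), (i : ℕ) ≤ r → w i ∉ U := by
      intro i _ hcon
      refine b0 (m2 _ (by simpa using hr) _ hcon ?_)
      exact hAv.last_ne_zero (hw _) (w.ne_zero _)
    have b2 : ∀ j : Fin (d + 1), r ≤ (j : ℕ) → v j ∉ U := by
      intro j _ hcon
      refine h0 (m1 0 (by simp) _ hcon ?_)
      exact hAw.first_ne_zero (hv _) (v.ne_zero _)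
    rw [eq_bot_iff]
    intro u hu
    rw [Submodule.mem_bot]
    have e1 : ∀ i : Fin (d + 1), (i : ℕ) ≤ r → w.repr u i = 0 := fun i hi => by
      by_contra hcon
      exact b1 i hi (m1 i hi u hu hcon)
    have e2 : ∀ j : Fin (d + 1), r ≤ (j : ℕ) → v.repr u j = 0 := fun j hj => by
      by_contra hcon
      exact b2 j hj (m2 j hj u hu hcon)
    rcases Nat.lt_or_ge r d with hrd | hrd
    · refine zero_inter h.mf.1 hv hAw.rev (d - r - 1) (Finset.Ici (⟨r, by omega⟩ : Fin (d + 1)))
        ?_ u ?_ ?_
      · rw [Fin.card_Ici]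
        simp
        omega
      · intro i hi
        have := e1 i.rev (by simp only [Fin.val_rev]; omega)
        simpa using this
      · intro j hj
        exact e2 j (by simpa [Fin.le_def] using hj)
    · have hz : w.repr u = 0 := Finsupp.ext fun j => e1 j (by omega)
      simpa using hz

end Q7.Leonard
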