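import Mathlib
import Pool.Agent.Q7.LeonardDefs
import Pool.Agent.Q7.LeonardBasic
import Pool.Agent.Q7.LeonardGen

/-!
# Leonard systems: generation of the full algebra
-/

set_option autoImplicit false

namespace Q7.Leonard

open Module Polynomial

variable {K V : Type*} [Field K] [AddCommGroup V] [Module K V] {d : ℕ}

/-- The subalgebra acts irreducibly and contains a rank one idempotent, so it is everything. -/
theorem adjoin_eq_top_end (hV : finrank K V = d + 1) {A As : End K V} {θ θs : Fin (d + 1) → K}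
    (h : IsLeonardSystem A As θ θs) (r : ℕ) (hr : r ≤ d) :
    Algebra.adjoin K ({x | ∃ i : Fin (d + 1), (i : ℕ) ≤ r ∧ x = primIdem As θs i} ∪
      {x | ∃ j : Fin (d + 1), r ≤ (j : ℕ) ∧ x = primIdem A θ j}) = ⊤ := by
  classical
  obtain ⟨v, hv⟩ := h.mf.exists_basis hV
  obtain ⟨w, hw⟩ := h.mfs.exists_basis hV
  have hfin : FiniteDimensional K V := Module.Basis.finiteDimensional_of_finite v
  set W := Algebra.adjoin K ({x | ∃ i : Fin (d + 1), (i : ℕ) ≤ r ∧ x = primIdem As θs i} ∪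
      {x | ∃ j : Fin (d + 1), r ≤ (j : ℕ) ∧ x = primIdem A θ j}) with hW
  have w1 : ∀ i : Fin (d + 1), (i : ℕ) ≤ r → primIdem As θs i ∈ W := fun i hi =>
    Algebra.subset_adjoin (Or.inl ⟨i, hi, rfl⟩)
  have w2 : ∀ j : Fin (d + 1), r ≤ (j : ℕ) → primIdem A θ j ∈ W := fun i hi =>
    Algebra.subset_adjoin (Or.inr ⟨i, hi, rfl⟩)
  have irr : ∀ U : Submodule K V, (∀ T ∈ W, ∀ u ∈ U, T u ∈ U) → U = ⊥ ∨ U = ⊤ := fun U hU =>
    invariant_eq h hv hw r hr U (fun i hi => hU _ (w1 i hi)) (fun j hj => hU _ (w2 j hj))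
  -- the orbit of `w 0`
  have o1 : (Subalgebra.toSubmodule W).map (LinearMap.applyₗ (w 0)) = ⊤ := by
    refine (irr _ ?_).resolve_left ?_
    · rintro T hT u ⟨S, hS, rfl⟩
      exact ⟨T * S, W.mul_mem hT hS, rfl⟩
    · intro hb
      have : w 0 ∈ (Subalgebra.toSubmodule W).map (LinearMap.applyₗ (w 0)) :=
        ⟨1, W.one_mem, rfl⟩
      rw [hb, Submodule.mem_bot] at this
      exact w.ne_zero 0 this
  -- the orbit of the first coordinate functional
  let Φ : End K V →ₗ[K] Dual K V := LinearMap.compRight K (w.coord 0)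
  have o2 : (Subalgebra.toSubmodule W).map Φ = ⊤ := by
    have h1 : ((Subalgebra.toSubmodule W).map Φ).dualCoannihilator = ⊥ := by
      refine (irr _ ?_).resolve_right ?_
      · intro T hT u hu
        rw [Submodule.mem_dualCoannihilator] at hu ⊢
        rintro _ ⟨S, hS, rfl⟩
        exact hu _ ⟨S * T, W.mul_mem hS hT, rfl⟩
      · intro htop
        have : w 0 ∈ ((Subalgebra.toSubmodule W).map Φ).dualCoannihilator := by
          rw [htop]; trivial
        rw [Submodule.mem_dualCoannihilator] at this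
        have := this _ ⟨1, W.one_mem, rfl⟩
        simp [Φ] at this
    have h2 := Subspace.dualCoannihilator_dualAnnihilator_eq
      (W := (Subalgebra.toSubmodule W).map Φ)
    rw [h1, Submodule.dualAnnihilator_bot] at h2
    exact h2.symm
  rw [eq_top_iff]
  intro X _
  have hX : X = ∑ i, ∑ j, v.repr (X (v j)) i • ((v.coord j).smulRight (v i) : End K V) := by
    refine v.ext fun k => ?_
    simp only [LinearMap.coe_sum, Finset.sum_apply, LinearMap.smul_apply,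
      LinearMap.smulRight_apply, Basis.coord_apply, Basis.repr_self]
    conv_lhs => rw [← v.sum_repr (X (v k))]
    refine Finset.sum_congr rfl fun i _ => ?_
    rw [Finset.sum_eq_single k]
    · simp
    · intro j _ hj
      rw [Finsupp.single_apply, if_neg (Ne.symm hj), zero_smul, smul_zero]
    · simp
  rw [hX]
  refine W.sum_mem fun i _ => W.sum_mem fun j _ => W.smul_mem ?_ _
  obtain ⟨T, hT, hT'⟩ : v i ∈ (Subalgebra.toSubmodule W).map (LinearMap.applyₗ (w 0)) := by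
    rw [o1]; trivial
  obtain ⟨S, hS, hS'⟩ : v.coord j ∈ (Subalgebra.toSubmodule W).map Φ := by
    rw [o2]; trivial
  have h3 : ((v.coord j).smulRight (v i) : End K V) = T * primIdem As θs 0 * S := by
    ext x
    rw [Module.End.mul_apply, Module.End.mul_apply, primIdem_basis h.mfs.1 hw, map_smul,
      LinearMap.smulRight_apply, ← hS', ← hT']
    rfl
  rw [h3]
  exact W.mul_mem (W.mul_mem hT (w1 0 (by simp))) hS

/-- transport of a Leonard system along an isomorphism of algebras -/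
theorem IsLeonardSystem.map {𝒜 ℬ : Type*} [Ring 𝒜] [Algebra K 𝒜] [Ring ℬ] [Algebra K ℬ]
    (e : 𝒜 ≃ₐ[K] ℬ) {A As : 𝒜} {θ θs : Fin (d + 1) → K} (h : IsLeonardSystem A As θ θs) :
    IsLeonardSystem (e A) (e As) θ θs := by
  have hp : ∀ (X : 𝒜) (η : Fin (d + 1) → K) (i : Fin (d + 1)),
      primIdem (e X) η i = e (primIdem X η i) := by
    intro X η i
    unfold primIdem
    rw [Polynomial.aeval_algHom_apply]
  have hz : ∀ x : 𝒜, e x = 0 ↔ x = 0 := fun x => by simp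
  refine ⟨⟨h.mf.1, fun i => ?_⟩, ⟨h.mfs.1, fun i => ?_⟩, fun i j hij => ?_, fun i j hij => ?_,
    fun i j hij => ?_, fun i j hij => ?_⟩
  · rw [AlgEquiv.spectrum_eq]; exact h.mf.2 i
  · rw [AlgEquiv.spectrum_eq]; exact h.mfs.2 i
  · rw [hp, hp, ← map_mul, ← map_mul, hz]; exact h.zero i j hij
  · rw [hp, hp, ← map_mul, ← map_mul, Ne, hz]; exact h.ne_zero i j hij
  · rw [hp, hp, ← map_mul, ← map_mul, hz]; exact h.zero_s i j hij
  · rw [hp, hp, ← map_mul, ← map_mul, Ne, hz]; exact h.ne_zero_s i j hij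

theorem map_primIdem {𝒜 ℬ : Type*} [Ring 𝒜] [Algebra K 𝒜] [Ring ℬ] [Algebra K ℬ]
    (e : 𝒜 ≃ₐ[K] ℬ) (X : 𝒜) (η : Fin (d + 1) → K) (i : Fin (d + 1)) :
    primIdem (e X) η i = e (primIdem X η i) := by
  unfold primIdem
  rw [Polynomial.aeval_algHom_apply]

theorem adjoin_eq_top {𝒜 : Type*} [Ring 𝒜] [Algebra K 𝒜]
    (h𝒜 : Nonempty (𝒜 ≃ₐ[K] Matrix (Fin (d + 1)) (Fin (d + 1)) K)) {A As : 𝒜}
    {θ θs : Fin (d + 1) → K} (h : IsLeonardSystem A As θ θs) (r : ℕ) (hr : r ≤ d) :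
    Algebra.adjoin K ({x | ∃ i : Fin (d + 1), (i : ℕ) ≤ r ∧ x = primIdem As θs i} ∪
      {x | ∃ j : Fin (d + 1), r ≤ (j : ℕ) ∧ x = primIdem A θ j}) = ⊤ := by
  obtain ⟨e₀⟩ := h𝒜
  let e : 𝒜 ≃ₐ[K] End K (Fin (d + 1) → K) := e₀.trans Matrix.toLinAlgEquiv'
  have key := adjoin_eq_top_end (V := Fin (d + 1) → K) (by simp) (h.map e) r hr
  have h1 : ((e : 𝒜 →ₐ[K] End K (Fin (d + 1) → K)) ''
      ({x | ∃ i : Fin (d + 1), (i : ℕ) ≤ r ∧ x = primIdem As θs i} ∪
        {x | ∃ j : Fin (d + 1), r ≤ (j : ℕ) ∧ x = primIdem A θ j})) =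
      ({x | ∃ i : Fin (d + 1), (i : ℕ) ≤ r ∧ x = primIdem (e As) θs i} ∪
        {x | ∃ j : Fin (d + 1), r ≤ (j : ℕ) ∧ x = primIdem (e A) θ j}) := by
    ext x
    simp only [Set.mem_image, Set.mem_union, Set.mem_ofPred_eq, map_primIdem]
    constructor
    · rintro ⟨y, ⟨i, hi, rfl⟩ | ⟨i, hi, rfl⟩, rfl⟩
      · exact Or.inl ⟨i, hi, rfl⟩
      · exact Or.inr ⟨i, hi, rfl⟩
    · rintro (⟨i, hi, rfl⟩ | ⟨i, hi, rfl⟩)
      · exact ⟨_, Or.inl ⟨i, hi, rfl⟩, rfl⟩
      · exact ⟨_, Or.inr ⟨i, hi, rfl⟩, rfl⟩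
  rw [← h1, ← AlgHom.map_adjoin] at key
  rw [eq_top_iff]
  intro x _
  have h2 : e x ∈ (Algebra.adjoin K ({x | ∃ i : Fin (d + 1), (i : ℕ) ≤ r ∧
      x = primIdem As θs i} ∪ {x | ∃ j : Fin (d + 1), r ≤ (j : ℕ) ∧
      x = primIdem A θ j})).map (e : 𝒜 →ₐ[K] End K (Fin (d + 1) → K)) := by
    rw [key]; trivial
  obtain ⟨y, hy, hxy⟩ := h2
  rw [← e.injective hxy]
  exact hy

end Q7.Leonard
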