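import Mathlib

/-!
# Invariant maximal nonnegative subspaces, abstractly

Let `B` be a (possibly degenerate) symmetric bilinear form on a finite dimensional real vector
space and let `Ops` be a set of operators which is closed under passing to `B`-adjoints. Under the
hypothesis that the minimal steps between stable subspaces are semi-definite, every stable
`B`-nonnegative subspace is contained in a stable subspace which is maximal among *all*
`B`-nonnegative subspaces.
-/

set_option autoImplicit false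

namespace Q7.SkewExtend

open LinearMap.BilinForm

variable {V : Type*} [AddCommGroup V] [Module ℝ V]

/-- `W` is stable under all operators in `Ops`. -/
def Stable (Ops : Set (Module.End ℝ V)) (W : Submodule ℝ V) : Prop :=
  ∀ T ∈ Ops, ∀ x ∈ W, T x ∈ W

/-- `W` is nonnegative. -/
def NonnegOn (B : LinearMap.BilinForm ℝ V) (W : Submodule ℝ V) : Prop := ∀ x ∈ W, 0 ≤ B x x

/-- The standing assumptions on `B` and `Ops`. -/
structure Good (B : LinearMap.BilinForm ℝ V) (Ops : Set (Module.End ℝ V)) : Prop where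
  symm : ∀ x y, B x y = B y x
  adj : ∀ T ∈ Ops, ∃ T' ∈ Ops, ∀ x y, B x (T y) = B (T' x) y
  step : ∀ S T : Submodule ℝ V, Stable Ops S → Stable Ops T → S < T →
    ∃ U : Submodule ℝ V, Stable Ops U ∧ S < U ∧ U ≤ T ∧
      ∃ b : ℝ, ∀ u ∈ U, ∃ s ∈ S, ∃ c : ℝ, 0 ≤ c ∧ B (u - s) (u - s) = c * b ∧ (c = 0 → u = s)

variable {B : LinearMap.BilinForm ℝ V} {Ops : Set (Module.End ℝ V)}

lemma Good.isRefl (h : Good B Ops) : B.IsRefl := fun x y hxy => by rw [← h.symm x y, hxy]

lemma Good.neg (h : Good B Ops) : Good (-B) Ops := by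
  refine ⟨fun x y => ?_, fun T hT => ?_, fun S T hS hT hST => ?_⟩
  · rw [LinearMap.neg_apply, LinearMap.neg_apply, LinearMap.neg_apply, LinearMap.neg_apply,
      h.symm x y]
  · obtain ⟨T', hT', hadj⟩ := h.adj T hT
    exact ⟨T', hT', fun x y => by
      rw [LinearMap.neg_apply, LinearMap.neg_apply, LinearMap.neg_apply, LinearMap.neg_apply,
        hadj x y]⟩
  · obtain ⟨U, hU, hSU, hUT, b, hb⟩ := h.step S T hS hT hST
    refine ⟨U, hU, hSU, hUT, -b, fun u hu => ?_⟩
    obtain ⟨s, hs, c, hc, h1, h2⟩ := hb u hu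
    refine ⟨s, hs, c, hc, ?_, h2⟩
    rw [LinearMap.neg_apply, LinearMap.neg_apply, h1]
    ring

lemma Stable.orthogonal (h : Good B Ops) {W : Submodule ℝ V} (hW : Stable Ops W) :
    Stable Ops (B.orthogonal W) := by
  intro T hT x hx
  rw [mem_orthogonal_iff] at hx ⊢
  intro w hw
  obtain ⟨T', hT', hadj⟩ := h.adj T hT
  rw [hadj, hx (T' w) (hW T' hT' w hw)]

lemma Stable.sup {W W' : Submodule ℝ V} (hW : Stable Ops W) (hW' : Stable Ops W') :
    Stable Ops (W ⊔ W') := by
  intro T hT x hx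
  obtain ⟨y, hy, z, hz, rfl⟩ := Submodule.mem_sup.1 hx
  rw [map_add]
  exact Submodule.add_mem_sup (hW T hT y hy) (hW' T hT z hz)

lemma Stable.inf {W W' : Submodule ℝ V} (hW : Stable Ops W) (hW' : Stable Ops W') :
    Stable Ops (W ⊓ W') := fun T hT x hx => ⟨hW T hT x hx.1, hW' T hT x hx.2⟩

lemma stable_top : Stable Ops (⊤ : Submodule ℝ V) := fun _ _ _ _ => Submodule.mem_top

lemma mem_orth {W : Submodule ℝ V} {x : V} : x ∈ B.orthogonal W ↔ ∀ w ∈ W, B w x = 0 := by
  rw [mem_orthogonal_iff]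

/-- Orthogonal vectors. -/
lemma orth_add (h : Good B Ops) {x y : V} (hxy : B x y = 0) :
    B (x + y) (x + y) = B x x + B y y := by
  simp only [map_add, LinearMap.add_apply]
  rw [h.symm y x, hxy]
  ring

lemma orth_sup (W W' : Submodule ℝ V) :
    B.orthogonal (W ⊔ W') = B.orthogonal W ⊓ B.orthogonal W' := by
  apply le_antisymm
  · exact le_inf (orthogonal_le le_sup_left) (orthogonal_le le_sup_right)
  · rintro x ⟨hx, hx'⟩
    rw [SetLike.mem_coe, mem_orth] at hx hx'
    rw [mem_orth]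
    intro w hw
    obtain ⟨y, hy, z, hz, rfl⟩ := Submodule.mem_sup.1 hw
    rw [map_add, LinearMap.add_apply, hx y hy, hx' z hz, add_zero]

variable [FiniteDimensional ℝ V]

lemma dperp (h : Good B Ops) {W : Submodule ℝ V} (hW : B.orthogonal ⊤ ≤ W) :
    B.orthogonal (B.orthogonal W) = W := by
  symm
  apply Submodule.eq_of_le_of_finrank_le (le_orthogonal_orthogonal h.isRefl)
  have h1 := finrank_add_finrank_orthogonal h.isRefl W
  have h2 := finrank_add_finrank_orthogonal h.isRefl (B.orthogonal W)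
  rw [inf_of_le_right hW] at h1
  rw [inf_of_le_right (orthogonal_le le_top)] at h2
  omega

lemma orth_inf (h : Good B Ops) {W W' : Submodule ℝ V} (hW : B.orthogonal ⊤ ≤ W)
    (hW' : B.orthogonal ⊤ ≤ W') :
    B.orthogonal (W ⊓ W') = B.orthogonal W ⊔ B.orthogonal W' := by
  have h1 : B.orthogonal (B.orthogonal W ⊔ B.orthogonal W') = W ⊓ W' := by
    rw [orth_sup, dperp h hW, dperp h hW']
  rw [← h1, dperp h]
  exact le_sup_of_le_left (orthogonal_le le_top)

lemma exists_max {P : Submodule ℝ V → Prop} {N : Submodule ℝ V} (hN : P N) :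
    ∃ L, N ≤ L ∧ P L ∧ ∀ L', P L' → L ≤ L' → L' = L := by
  obtain ⟨L, ⟨h1, h2⟩, h3⟩ := WellFounded.has_min (wellFounded_gt (α := Submodule ℝ V))
    {L | N ≤ L ∧ P L} ⟨N, le_rfl, hN⟩
  refine ⟨L, h1, h2, fun L' h4 h5 => ?_⟩
  by_contra h6
  exact h3 L' ⟨h1.trans h5, h4⟩ (lt_of_le_of_ne h5 (Ne.symm h6))

/-- In a nonnegative subspace, isotropic vectors are orthogonal to everything. -/
lemma cauchy (h : Good B Ops) {L : Submodule ℝ V} (hL : NonnegOn B L) {x y : V} (hx : x ∈ L)
    (hy : y ∈ L) (h0 : B x x = 0) : B x y = 0 := by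
  by_contra hne
  have h1 : ∀ t : ℝ, 0 ≤ 2 * t * B x y + B y y := by
    intro t
    have h2 := hL (t • x + y) (L.add_mem (L.smul_mem t hx) hy)
    simp only [map_add, LinearMap.add_apply, map_smul, LinearMap.smul_apply, smul_eq_mul] at h2
    rw [h.symm y x, h0] at h2
    linarith
  have h2 := h1 (-(B y y + 1) / (2 * B x y))
  have h3 : 2 * (-(B y y + 1) / (2 * B x y)) * B x y = -(B y y + 1) := by
    field_simp
  rw [h3] at h2
  linarith

/-- **Main theorem**: a stable nonnegative subspace is contained in a stable subspace which is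
maximal nonnegative. -/
theorem exists_stable_maximal (h : Good B Ops) {N : Submodule ℝ V} (hN : Stable Ops N)
    (hN0 : NonnegOn B N) :
    ∃ L, N ≤ L ∧ Stable Ops L ∧ NonnegOn B L ∧
      ∀ L' : Submodule ℝ V, NonnegOn B L' → L ≤ L' → L' = L := by
  obtain ⟨L, hNL, ⟨hLs, hLn⟩, hmax⟩ :=
    exists_max (P := fun L => Stable Ops L ∧ NonnegOn B L) ⟨hN, hN0⟩
  refine ⟨L, hNL, hLs, hLn, ?_⟩
  -- the radical is contained in `L`
  have hrad : B.orthogonal ⊤ ≤ L := by
    have h1 : L ⊔ B.orthogonal ⊤ = L := by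
      apply hmax _ ⟨hLs.sup (Stable.orthogonal h stable_top), ?_⟩ le_sup_left
      intro x hx
      obtain ⟨y, hy, z, hz, rfl⟩ := Submodule.mem_sup.1 hx
      rw [mem_orth] at hz
      rw [orth_add h (hz y Submodule.mem_top), hz z Submodule.mem_top, add_zero]
      exact hLn y hy
    rw [← h1]
    exact le_sup_right
  set L0 := L ⊓ B.orthogonal L with hL0
  have hL0s : Stable Ops L0 := hLs.inf (Stable.orthogonal h hLs)
  have hL0rad : B.orthogonal ⊤ ≤ L0 := le_inf hrad (orthogonal_le le_top)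
  have hL0perp : B.orthogonal L0 = L ⊔ B.orthogonal L := by
    rw [hL0, orth_inf h hrad (orthogonal_le le_top), dperp h hrad, sup_comm]
  -- Step 1
  have step1 : ∀ U : Submodule ℝ V, Stable Ops U → L0 < U → U ≤ B.orthogonal L → ∀ b : ℝ,
      (∀ u ∈ U, ∃ s ∈ L0, ∃ c : ℝ, 0 ≤ c ∧ B (u - s) (u - s) = c * b ∧ (c = 0 → u = s)) →
      b < 0 := by
    intro U hU hLU hUL b hb
    by_contra hb0
    push Not at hb0
    have h1 : L ⊔ U = L := by
      apply hmax _ ⟨hLs.sup hU, ?_⟩ le_sup_left
      intro x hx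
      obtain ⟨l, hl, u, hu, rfl⟩ := Submodule.mem_sup.1 hx
      obtain ⟨s, hs, c, hc, h2, -⟩ := hb u hu
      have h3 : l + u = (l + s) + (u - s) := by abel
      have h4 : u - s ∈ B.orthogonal L := Submodule.sub_mem _ (hUL hu) hs.2
      rw [h3, orth_add h (mem_orth.1 h4 _ (L.add_mem hl hs.1)), h2]
      have h5 := hLn _ (L.add_mem hl hs.1)
      positivity
    have h2 : U ≤ L0 := le_inf (by rw [← h1]; exact le_sup_right) hUL
    exact absurd hLU (not_lt_of_ge h2)
  -- Step 2
  have step2 : ∀ x ∈ B.orthogonal L, B x x ≤ 0 ∧ (B x x = 0 → x ∈ L0) := by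
    obtain ⟨P, -, ⟨hPs, hP0, hPL, hPn⟩, hPmax⟩ :=
      exists_max (N := L0) (P := fun P => Stable Ops P ∧ L0 ≤ P ∧ P ≤ B.orthogonal L ∧
        ∀ x ∈ P, B x x ≤ 0 ∧ (B x x = 0 → x ∈ L0)) ⟨hL0s, le_rfl, inf_le_right, fun x hx => by
          have h1 : B x x = 0 := mem_orth.1 hx.2 x hx.1
          exact ⟨h1.le, fun _ => hx⟩⟩
    by_cases hPe : P = B.orthogonal L
    · rw [← hPe]
      exact hPn
    exfalso
    set T := B.orthogonal P ⊓ B.orthogonal L with hT
    have hTs : Stable Ops T := (Stable.orthogonal h hPs).inf (Stable.orthogonal h hLs)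
    have hL0T : L0 ≤ T := by
      refine le_inf ?_ inf_le_right
      have h1 : B.orthogonal (B.orthogonal L) ≤ B.orthogonal P := orthogonal_le hPL
      rw [dperp h hrad] at h1
      exact inf_le_left.trans h1
    have hPrad : B.orthogonal ⊤ ≤ P := hL0rad.trans hP0
    have hTne : L0 ≠ T := by
      intro hEq
      apply hPe
      apply le_antisymm hPL
      have h1 : B.orthogonal T = P ⊔ L := by
        rw [hT, orth_inf h (orthogonal_le le_top) (orthogonal_le le_top), dperp h hPrad,
          dperp h hrad]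
      rw [← hEq, hL0perp] at h1
      intro x hx
      have h2 : x ∈ P ⊔ L := by
        rw [← h1]
        exact Submodule.mem_sup_right hx
      obtain ⟨p, hp, l, hl, rfl⟩ := Submodule.mem_sup.1 h2
      have h3 : l ∈ B.orthogonal L := by
        have := Submodule.sub_mem _ hx (hPL hp)
        rwa [add_sub_cancel_left] at this
      exact P.add_mem hp (hP0 ⟨hl, h3⟩)
    obtain ⟨U, hUs, hLU, hUT, b, hb⟩ := h.step L0 T hL0s hTs (lt_of_le_of_ne hL0T hTne)
    have hb0 : b < 0 := step1 U hUs hLU (hUT.trans inf_le_right) b hb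
    have h1 : P ⊔ U = P := by
      apply hPmax _ ⟨hPs.sup hUs, hP0.trans le_sup_left, sup_le hPL (hUT.trans inf_le_right), ?_⟩
        le_sup_left
      intro x hx
      obtain ⟨p, hp, u, hu, rfl⟩ := Submodule.mem_sup.1 hx
      obtain ⟨s, hs, c, hc, h2, h2'⟩ := hb u hu
      have h3 : p + u = (p + s) + (u - s) := by abel
      have hps : p + s ∈ P := P.add_mem hp (hP0 hs)
      have h4 : u - s ∈ B.orthogonal P := Submodule.sub_mem _ (hUT hu).1 (hL0T hs).1
      have h5 : B (p + u) (p + u) = B (p + s) (p + s) + c * b := by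
        conv_lhs => rw [h3]
        rw [orth_add h (mem_orth.1 h4 _ hps), h2]
      have h6 := hPn _ hps
      have h7 : c * b ≤ 0 := mul_nonpos_of_nonneg_of_nonpos hc hb0.le
      refine ⟨by rw [h5]; linarith [h6.1], fun h8 => ?_⟩
      rw [h5] at h8
      have h9 : B (p + s) (p + s) = 0 := by linarith [h6.1]
      have h10 : c * b = 0 := by linarith
      have h11 : c = 0 := by
        rcases mul_eq_zero.1 h10 with h11 | h11
        · exact h11
        · exact absurd h11 hb0.ne
      rw [h2' h11]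
      exact h6.2 h9
    have h2 : U ≤ L0 := by
      intro u hu
      have hu' : u ∈ P := by
        rw [← h1]
        exact Submodule.mem_sup_right hu
      have h3 : B u u = 0 := mem_orth.1 (hUT hu).1 u hu'
      exact (hPn u hu').2 h3
    exact absurd hLU (not_lt_of_ge h2)
  -- Step 3
  intro L' hL' hLL'
  apply le_antisymm _ hLL'
  intro y hy
  have h1 : y ∈ B.orthogonal L0 := by
    rw [mem_orth]
    intro w hw
    exact cauchy h hL' (hLL' hw.1) hy (mem_orth.1 hw.2 w hw.1)
  rw [hL0perp] at h1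
  obtain ⟨l, hl, l', hl', rfl⟩ := Submodule.mem_sup.1 h1
  have h2 : l' ∈ L' := by
    have := L'.sub_mem hy (hLL' hl)
    rwa [add_sub_cancel_left] at this
  have h3 := hL' l' h2
  have h4 := step2 l' hl'
  exact L.add_mem hl (h4.2 (le_antisymm h4.1 h3)).1

end Q7.SkewExtend
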