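import Mathlib
import Pool.Agent.Q7.SkewExtend

/-!
# Quaternionic operators which are skew-adjoint for a real symmetric form
-/

set_option autoImplicit false

namespace Q7.QuatHam

open Quaternion Matrix Polynomial Q7.SkewExtend

variable {n : ℕ}

/-- Right multiplication by `l`, as a real linear map. -/
noncomputable def opR (l : ℍ[ℝ]) : Module.End ℝ (Fin n → ℍ[ℝ]) where
  toFun x := MulOpposite.op l • x
  map_add' := smul_add _
  map_smul' _ _ := by
    ext i : 1
    simp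

/-- Left multiplication by `A`, as a real linear map. -/
noncomputable def opA (A : Matrix (Fin n) (Fin n) ℍ[ℝ]) : Module.End ℝ (Fin n → ℍ[ℝ]) where
  toFun x := A *ᵥ x
  map_add' := mulVec_add _
  map_smul' _ _ := mulVec_smul _ _ _

lemma opR_apply (l : ℍ[ℝ]) (x : Fin n → ℍ[ℝ]) : opR l x = MulOpposite.op l • x := rfl

lemma opA_apply (A : Matrix (Fin n) (Fin n) ℍ[ℝ]) (x : Fin n → ℍ[ℝ]) : opA A x = A *ᵥ x := rfl

lemma opA_opR (A : Matrix (Fin n) (Fin n) ℍ[ℝ]) (l : ℍ[ℝ]) (x : Fin n → ℍ[ℝ]) :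
    opA A (opR l x) = opR l (opA A x) := by
  rw [opA_apply, opR_apply, opR_apply, opA_apply, mulVec_smul]

lemma opR_opR (l m : ℍ[ℝ]) (x : Fin n → ℍ[ℝ]) : opR l (opR m x) = opR (m * l) x := by
  simp [opR_apply, smul_smul]

lemma opR_add (l m : ℍ[ℝ]) (x : Fin n → ℍ[ℝ]) : opR (l + m) x = opR l x + opR m x := by
  simp [opR_apply, add_smul]

lemma opR_coe (r : ℝ) (x : Fin n → ℍ[ℝ]) : opR (r : ℍ[ℝ]) x = r • x := by
  ext i : 1
  rw [opR_apply, Pi.smul_apply, Pi.smul_apply, op_smul_eq_mul,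
    Quaternion.mul_coe_eq_smul]

lemma opR_zero (x : Fin n → ℍ[ℝ]) : opR 0 x = 0 := by
  simp [opR_apply]

lemma opR_one (x : Fin n → ℍ[ℝ]) : opR 1 x = x := by
  simp [opR_apply]

lemma opR_ne_zero {l : ℍ[ℝ]} (hl : l ≠ 0) {x : Fin n → ℍ[ℝ]} (hx : x ≠ 0) : opR l x ≠ 0 := by
  intro h
  apply hx
  have h1 := congrArg (opR l⁻¹) h
  rw [opR_opR, mul_inv_cancel₀ hl, opR_one, map_zero] at h1
  exact h1

/-- The operators: right multiplications and `± A`. -/
def Ops (A : Matrix (Fin n) (Fin n) ℍ[ℝ]) : Set (Module.End ℝ (Fin n → ℍ[ℝ])) :=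
  {T | (∃ l, T = opR l) ∨ T = opA A ∨ T = -opA A}

variable {A : Matrix (Fin n) (Fin n) ℍ[ℝ]}

lemma stable_iff {W : Submodule ℝ (Fin n → ℍ[ℝ])} :
    Stable (Ops A) W ↔ (∀ l, ∀ x ∈ W, opR l x ∈ W) ∧ ∀ x ∈ W, opA A x ∈ W := by
  constructor
  · intro h
    exact ⟨fun l => h _ (Or.inl ⟨l, rfl⟩), h _ (Or.inr (Or.inl rfl))⟩
  · rintro ⟨h1, h2⟩ T (⟨l, rfl⟩ | rfl | rfl) x hx
    · exact h1 l x hx
    · exact h2 x hx
    · exact W.neg_mem (h2 x hx)

lemma Stable.opR {W : Submodule ℝ (Fin n → ℍ[ℝ])} (h : Stable (Ops A) W) (l : ℍ[ℝ])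
    {x : Fin n → ℍ[ℝ]} (hx : x ∈ W) : opR l x ∈ W := (stable_iff.1 h).1 l x hx

lemma Stable.opA {W : Submodule ℝ (Fin n → ℍ[ℝ])} (h : Stable (Ops A) W)
    {x : Fin n → ℍ[ℝ]} (hx : x ∈ W) : opA A x ∈ W := (stable_iff.1 h).2 x hx

lemma Stable.aeval {W : Submodule ℝ (Fin n → ℍ[ℝ])} (h : Stable (Ops A) W) (f : ℝ[X])
    {x : Fin n → ℍ[ℝ]} (hx : x ∈ W) : aeval (Q7.QuatHam.opA A) f x ∈ W := by
  induction f using Polynomial.induction_on' generalizing x with
  | add p q hp hq =>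
    rw [map_add, LinearMap.add_apply]
    exact W.add_mem (hp hx) (hq hx)
  | monomial k a =>
    rw [aeval_monomial, Module.End.mul_apply, Module.algebraMap_end_apply]
    apply W.smul_mem
    induction k with
    | zero => rwa [pow_zero, Module.End.one_apply]
    | succ k ih =>
      rw [pow_succ', Module.End.mul_apply]
      exact Stable.opA h ih

lemma aeval_opR (f : ℝ[X]) (l : ℍ[ℝ]) (x : Fin n → ℍ[ℝ]) :
    aeval (opA A) f (opR l x) = opR l (aeval (opA A) f x) := by
  induction f using Polynomial.induction_on' generalizing x with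
  | add p q hp hq =>
    rw [map_add, LinearMap.add_apply, LinearMap.add_apply, map_add, hp, hq]
  | monomial k a =>
    rw [aeval_monomial, Module.End.mul_apply, Module.End.mul_apply, Module.algebraMap_end_apply,
      Module.algebraMap_end_apply, map_smul]
    congr 1
    induction k with
    | zero => rfl
    | succ k ih =>
      rw [pow_succ', Module.End.mul_apply, Module.End.mul_apply, ih, opA_opR]

/-- The real quadratic polynomial of a quaternion. -/
noncomputable def quad (l : ℍ[ℝ]) : ℝ[X] := X ^ 2 - C (2 * l.re) * X + C (normSq l)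

lemma quad_ne_zero (l : ℍ[ℝ]) : quad l ≠ 0 := by
  intro h
  have h1 := congrArg (fun p => coeff p 2) h
  simp only [quad, coeff_add, coeff_sub, coeff_X_pow, coeff_C_mul, coeff_X, coeff_C,
    coeff_zero] at h1
  norm_num at h1

lemma aeval_quad (l m : ℍ[ℝ]) : aeval m (quad l) = m * m - (2 * l.re : ℝ) * m + (normSq l : ℝ) := by
  rw [quad, map_add, map_sub, map_mul, aeval_C, aeval_C, aeval_X, map_pow, aeval_X, pow_two]
  rfl

lemma quad_root (l : ℍ[ℝ]) : aeval l (quad l) = 0 := by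
  rw [aeval_quad, ← self_add_star', ← star_mul_self]
  noncomm_ring

lemma aeval_quad_op (l : ℍ[ℝ]) (x : Fin n → ℍ[ℝ]) :
    aeval (opA A) (quad l) x =
      opA A (opA A x) - (2 * l.re) • opA A x + (normSq l) • x := by
  rw [quad, map_add, map_sub, map_mul, aeval_C, aeval_C, aeval_X, map_pow, aeval_X, pow_two]
  rfl

/-- The roots of the quadratic polynomial are similar. -/
lemma exists_similar {l m : ℍ[ℝ]} (h : aeval m (quad l) = 0) : ∃ q : ℍ[ℝ], q ≠ 0 ∧ l * q = q * m := by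
  rw [aeval_quad] at h
  have h' : m * m = (2 * l.re : ℝ) * m - (normSq l : ℝ) := by
    rw [← sub_eq_zero, ← h]
    abel
  have key : ∀ x : ℍ[ℝ], l * (star l * x - x * m) = (star l * x - x * m) * m := by
    intro x
    have h1 : l * (star l * x - x * m) - (star l * x - x * m) * m =
        (normSq l : ℝ) * x - (2 * l.re : ℝ) * x * m + x * (m * m) := by
      have h2 : ((normSq l : ℝ) : ℍ[ℝ]) = l * star l := (self_mul_star l).symm
      have h3 : ((2 * l.re : ℝ) : ℍ[ℝ]) = l + star l := (self_add_star' l).symm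
      rw [h2, h3]
      noncomm_ring
    have h4 : (normSq l : ℝ) * x - (2 * l.re : ℝ) * x * m + x * (m * m) = 0 := by
      rw [h', mul_sub, ← mul_assoc, ← Quaternion.coe_commutes (2 * l.re) x,
        ← Quaternion.coe_commutes (normSq l) x]
      abel
    rw [h4] at h1
    exact sub_eq_zero.1 h1
  by_cases h1 : star l - m = 0
  · have hm : m = star l := (sub_eq_zero.1 h1).symm
    by_cases hr : star l = l
    · exact ⟨1, one_ne_zero, by rw [hm, hr, mul_one, one_mul]⟩
    · by_contra hcon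
      push Not at hcon
      apply hr
      have hz : ∀ x : ℍ[ℝ], star l * x = x * star l := by
        intro x
        by_contra hx
        have h5 := hcon (star l * x - x * m) (by rw [hm]; exact sub_ne_zero.2 hx)
        exact h5 (key x)
      have hi := hz ⟨0, 1, 0, 0⟩
      have hj := hz ⟨0, 0, 1, 0⟩
      have e1 := congrArg (fun q : ℍ[ℝ] => q.imJ) hi
      have e2 := congrArg (fun q : ℍ[ℝ] => q.imK) hi
      have e3 := congrArg (fun q : ℍ[ℝ] => q.imK) hj
      simp [Quaternion.imJ_mul, Quaternion.imK_mul] at e1 e2 e3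
      ext <;> simp <;> linarith
  · refine ⟨star l - m, h1, ?_⟩
    have := key 1
    rwa [mul_one, one_mul] at this

/-- Removing a root from a polynomial. -/
lemma exists_smaller {f : ℝ[X]} (hf : f ≠ 0) {l : ℍ[ℝ]} (h : aeval l f = 0) :
    ∃ g : ℝ[X], g ≠ 0 ∧ g.natDegree < f.natDegree ∧ f ∣ quad l * g := by
  obtain ⟨g, hg⟩ := EuclideanDomain.gcd_dvd_left f (quad l)
  obtain ⟨k, hk⟩ := EuclideanDomain.gcd_dvd_right f (quad l)
  set d := EuclideanDomain.gcd f (quad l) with hd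
  have hd0 : d ≠ 0 := by
    rintro h0
    rw [h0, zero_mul] at hg
    exact hf hg
  have hg0 : g ≠ 0 := by
    rintro rfl
    rw [mul_zero] at hg
    exact hf hg
  refine ⟨g, hg0, ?_, ⟨k, ?_⟩⟩
  · have hdeg : d.natDegree ≠ 0 := by
      intro hd1
      have hu : IsUnit d := Polynomial.isUnit_iff_degree_eq_zero.2
        (by rw [Polynomial.degree_eq_natDegree hd0, hd1]; rfl)
      have hc : IsCoprime f (quad l) := EuclideanDomain.gcd_isUnit_iff.1 hu
      obtain ⟨u, v, huv⟩ := hc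
      have := congrArg (aeval l) huv
      rw [map_add, map_mul, map_mul, h, quad_root, mul_zero, mul_zero, add_zero, map_one] at this
      exact zero_ne_one this
    have h2 : f.natDegree = d.natDegree + g.natDegree := by
      conv_lhs => rw [hg]
      exact Polynomial.natDegree_mul hd0 hg0
    omega
  · conv_lhs => rw [hk]
    conv_rhs => rw [hg]
    ring

/-- Eigenvectors modulo a stable subspace. -/
lemma exists_eigen_of_quad {S T : Submodule ℝ (Fin n → ℍ[ℝ])} (hS : Stable (Ops A) S)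
    (hT : Stable (Ops A) T) {l : ℍ[ℝ]} {y : Fin n → ℍ[ℝ]} (hy : y ∈ T) (hyS : y ∉ S)
    (h : aeval (opA A) (quad l) y ∈ S) : ∃ x ∈ T, x ∉ S ∧ opA A x - opR l x ∈ S := by
  by_cases hw : opA A y - opR (star l) y ∈ S
  · -- `y` is an eigenvector for `star l`
    obtain ⟨q, hq, hlq⟩ := exists_similar (l := star l) (m := l) (by
      have := quad_root l
      rw [aeval_quad] at this ⊢
      rwa [normSq_star, re_star])
    refine ⟨opR q y, Stable.opR hT q hy, fun h1 => hyS ?_, ?_⟩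
    · have := Stable.opR hS q⁻¹ h1
      rwa [opR_opR, mul_inv_cancel₀ hq, opR_one] at this
    · have h1 := Stable.opR hS q hw
      rw [map_sub, opR_opR, hlq] at h1
      rwa [opA_opR, opR_opR]
  · refine ⟨opA A y - opR (star l) y, T.sub_mem (Stable.opA hT hy) (Stable.opR hT _ hy), hw, ?_⟩
    rw [aeval_quad_op] at h
    have h1 : opA A (opA A y - opR (star l) y) - opR l (opA A y - opR (star l) y) =
        opA A (opA A y) - (2 * l.re) • opA A y + (normSq l) • y := by
      rw [map_sub, map_sub, opA_opR, opR_opR, star_mul_self, opR_coe, ← opR_coe (2 * l.re),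
        ← self_add_star', opR_add]
      abel
    rwa [h1]

/-- Roots of annihilating polynomials of least degree are eigenvalues. -/
lemma exists_eigen_of_root {S T : Submodule ℝ (Fin n → ℍ[ℝ])} (hS : Stable (Ops A) S)
    (hT : Stable (Ops A) T) {x : Fin n → ℍ[ℝ]} (hx : x ∈ T) {f : ℝ[X]} (hf : f ≠ 0)
    (hfx : aeval (opA A) f x ∈ S)
    (hmin : ∀ g : ℝ[X], g ≠ 0 → aeval (opA A) g x ∈ S → f.natDegree ≤ g.natDegree)
    {l : ℍ[ℝ]} (hl : aeval l f = 0) : ∃ x ∈ T, x ∉ S ∧ opA A x - opR l x ∈ S := by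
  obtain ⟨g, hg0, hgd, k, hk⟩ := exists_smaller hf hl
  refine exists_eigen_of_quad hS hT (y := aeval (opA A) g x) (Stable.aeval hT g hx)
    (fun h1 => absurd (hmin g hg0 h1) (not_le_of_gt hgd)) ?_
  rw [← Module.End.mul_apply, ← map_mul, hk, mul_comm, map_mul, Module.End.mul_apply]
  exact Stable.aeval hS k hfx

/-- A polynomial of least degree mapping `x` into `S`. -/
lemma exists_min_poly (S : Submodule ℝ (Fin n → ℍ[ℝ])) (x : Fin n → ℍ[ℝ]) :
    ∃ f : ℝ[X], f ≠ 0 ∧ aeval (opA A) f x ∈ S ∧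
      ∀ g : ℝ[X], g ≠ 0 → aeval (opA A) g x ∈ S → f.natDegree ≤ g.natDegree := by
  classical
  have hex : ∃ d : ℕ, ∃ f : ℝ[X], f ≠ 0 ∧ aeval (opA A) f x ∈ S ∧ f.natDegree = d := by
    refine ⟨_, minpoly ℝ (opA A), minpoly.ne_zero (Algebra.IsIntegral.isIntegral (opA A)), ?_, rfl⟩
    rw [minpoly.aeval, LinearMap.zero_apply]
    exact S.zero_mem
  obtain ⟨f, hf, hfx, hd⟩ := Nat.find_spec hex
  refine ⟨f, hf, hfx, fun g hg hgx => ?_⟩
  rw [hd]
  exact Nat.find_min' hex ⟨g, hg, hgx, rfl⟩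

lemma exists_root {f : ℝ[X]} (hf : f.degree ≠ 0) : ∃ l : ℍ[ℝ], aeval l f = 0 := by
  obtain ⟨z, hz⟩ := IsAlgClosed.exists_aeval_eq_zero (k := ℂ) f hf
  refine ⟨Quaternion.ofComplex z, ?_⟩
  rw [Polynomial.aeval_algHom_apply, hz, map_zero]

/-- Coprimality in terms of quaternionic roots. -/
lemma coprime_of_no_root {f g : ℝ[X]} (h : ∀ l : ℍ[ℝ], aeval l f = 0 → aeval l g ≠ 0) :
    IsCoprime f g := by
  rw [Polynomial.isCoprime_iff_aeval_ne_zero_of_isAlgClosed ℝ ℂ]
  intro z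
  by_contra hcon
  push Not at hcon
  refine h (Quaternion.ofComplex z) ?_ ?_
  · rw [Polynomial.aeval_algHom_apply, hcon.1, map_zero]
  · rw [Polynomial.aeval_algHom_apply, hcon.2, map_zero]

lemma exists_eigen_step {S T : Submodule ℝ (Fin n → ℍ[ℝ])} (hS : Stable (Ops A) S)
    (hT : Stable (Ops A) T) (hST : S < T) :
    ∃ l : ℍ[ℝ], ∃ x ∈ T, x ∉ S ∧ opA A x - opR l x ∈ S := by
  obtain ⟨x, hx, hxS⟩ := SetLike.exists_of_lt hST
  obtain ⟨f, hf, hfx, hmin⟩ := exists_min_poly (A := A) S x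
  have hdeg : f.degree ≠ 0 := by
    intro h0
    obtain ⟨c, hc⟩ : ∃ c, f = C c := ⟨_, Polynomial.eq_C_of_degree_eq_zero h0⟩
    have hc0 : c ≠ 0 := by
      rintro rfl
      exact hf (by rw [hc, C_0])
    rw [hc, aeval_C, Module.algebraMap_end_apply] at hfx
    apply hxS
    have := S.smul_mem c⁻¹ hfx
    rwa [smul_smul, inv_mul_cancel₀ hc0, one_smul] at this
  obtain ⟨l, hl⟩ := exists_root hdeg
  exact ⟨l, exists_eigen_of_root hS hT hx hf hfx hmin hl⟩

/-- The data: a real symmetric form for which right multiplication by `l` is adjoint to right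
multiplication by `star l` and `A` is skew-adjoint. -/
structure Data (B : LinearMap.BilinForm ℝ (Fin n → ℍ[ℝ])) (A : Matrix (Fin n) (Fin n) ℍ[ℝ]) :
    Prop where
  symm : ∀ x y, B x y = B y x
  adjR : ∀ x y l, B x (opR l y) = B (opR (star l) x) y
  skew : ∀ x y, B x (opA A y) = -B (opA A x) y
  norm : ∀ x l, B (opR l x) (opR l x) = normSq l * B x x

lemma Data.good {B : LinearMap.BilinForm ℝ (Fin n → ℍ[ℝ])} (h : Data B A) : Good B (Ops A) := by
  refine ⟨h.symm, ?_, ?_⟩
  · rintro T (⟨l, rfl⟩ | rfl | rfl)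
    · exact ⟨opR (star l), Or.inl ⟨_, rfl⟩, fun x y => h.adjR x y l⟩
    · refine ⟨-opA A, Or.inr (Or.inr rfl), fun x y => ?_⟩
      rw [h.skew, LinearMap.neg_apply, map_neg, LinearMap.neg_apply]
    · refine ⟨opA A, Or.inr (Or.inl rfl), fun x y => ?_⟩
      rw [LinearMap.neg_apply, map_neg, h.skew, neg_neg]
  · intro S T hS hT hST
    obtain ⟨l, x, hx, hxS, hl⟩ := exists_eigen_step hS hT hST
    let U : Submodule ℝ (Fin n → ℍ[ℝ]) :=
      { carrier := {u | ∃ s ∈ S, ∃ m : ℍ[ℝ], u = s + opR m x}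
        add_mem' := by
          rintro _ _ ⟨s, hs, m, rfl⟩ ⟨s', hs', m', rfl⟩
          exact ⟨s + s', S.add_mem hs hs', m + m', by rw [opR_add]; abel⟩
        zero_mem' := ⟨0, S.zero_mem, 0, by rw [opR_zero, add_zero]⟩
        smul_mem' := by
          rintro r _ ⟨s, hs, m, rfl⟩
          exact ⟨r • s, S.smul_mem r hs, m * r, by rw [smul_add, ← opR_opR, opR_coe]⟩ }
    have hU : ∀ u, u ∈ U ↔ ∃ s ∈ S, ∃ m : ℍ[ℝ], u = s + opR m x := fun u => Iff.rfl
    refine ⟨U, ?_, ?_, ?_, B x x, ?_⟩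
    · rw [stable_iff]
      constructor
      · intro m u hu
        rw [hU] at hu ⊢
        obtain ⟨s, hs, m', rfl⟩ := hu
        exact ⟨opR m s, Stable.opR hS m hs, m' * m, by rw [map_add, opR_opR]⟩
      · intro u hu
        rw [hU] at hu ⊢
        obtain ⟨s, hs, m, rfl⟩ := hu
        refine ⟨opA A s + opR m (opA A x - opR l x),
          S.add_mem (Stable.opA hS hs) (Stable.opR hS m hl), l * m, ?_⟩
        rw [map_add, opA_opR, map_sub, opR_opR]
        abel
    · refine lt_of_le_of_ne (fun s hs => (hU s).2 ⟨s, hs, 0, by rw [opR_zero, add_zero]⟩) ?_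
      intro hEq
      apply hxS
      rw [hEq]
      exact (hU x).2 ⟨0, S.zero_mem, 1, by rw [opR_one, zero_add]⟩
    · rintro u hu
      obtain ⟨s, hs, m, rfl⟩ := (hU u).1 hu
      exact T.add_mem (hST.le hs) (Stable.opR hT m hx)
    · rintro u hu
      obtain ⟨s, hs, m, rfl⟩ := (hU u).1 hu
      refine ⟨s, hs, normSq m, normSq_nonneg, ?_, fun h0 => ?_⟩
      · rw [add_sub_cancel_left, h.norm]
      · rw [normSq_eq_zero.1 h0, opR_zero, add_zero]

end Q7.QuatHam
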