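import Mathlib

/-!
# Quaternionic columns, invariant subspaces, maximal nonnegative subspaces, c-sets: definitions

`ℍ[ℝ]` is the division ring of real quaternions, `Fin n → ℍ[ℝ]` is the space of columns, and a right
`ℍ`-subspace is a `Submodule ℍ[ℝ]ᵐᵒᵖ (Fin n → ℍ[ℝ])`: the scalar `MulOpposite.op l` acts on a column
`x` by `(MulOpposite.op l • x) i = x i * l`.
-/

set_option autoImplicit false

namespace Q7.QuatHam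

open Quaternion Matrix

variable {n : ℕ}

/-- `x^* G y`. -/
noncomputable def starForm (G : Matrix (Fin n) (Fin n) ℍ[ℝ]) (x y : Fin n → ℍ[ℝ]) : ℍ[ℝ] := star x ⬝ᵥ (G *ᵥ y)

/-- `x_φ G y`, where `x_φ` is the row obtained from `x` by applying `φ` to every entry. -/
noncomputable def phiForm (φ : ℍ[ℝ] →ₗ[ℝ] ℍ[ℝ]) (G : Matrix (Fin n) (Fin n) ℍ[ℝ]) (x y : Fin n → ℍ[ℝ]) : ℍ[ℝ] :=
  (fun i => φ (x i)) ⬝ᵥ (G *ᵥ y)

/-- The subspace `M` is `A`-invariant. -/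
def IsInvariant (A : Matrix (Fin n) (Fin n) ℍ[ℝ]) (M : Submodule ℍ[ℝ]ᵐᵒᵖ (Fin n → ℍ[ℝ])) : Prop :=
  ∀ x ∈ M, A *ᵥ x ∈ M

/-- The subspace `M` is neutral with respect to the form `F`. -/
def IsNeutral (F : (Fin n → ℍ[ℝ]) → (Fin n → ℍ[ℝ]) → ℍ[ℝ])
    (M : Submodule ℍ[ℝ]ᵐᵒᵖ (Fin n → ℍ[ℝ])) : Prop :=
  ∀ x ∈ M, ∀ y ∈ M, F x y = 0

/-- The subspace `M` is nonnegative with respect to `F`: the real part of `F x x` is nonnegative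
for all `x ∈ M` (`F x x` is itself real for the forms to which this is applied). -/
def IsNonneg (F : (Fin n → ℍ[ℝ]) → (Fin n → ℍ[ℝ]) → ℍ[ℝ])
    (M : Submodule ℍ[ℝ]ᵐᵒᵖ (Fin n → ℍ[ℝ])) : Prop :=
  ∀ x ∈ M, 0 ≤ (F x x).re

/-- The subspace `M` is nonpositive with respect to `F`. -/
def IsNonpos (F : (Fin n → ℍ[ℝ]) → (Fin n → ℍ[ℝ]) → ℍ[ℝ])
    (M : Submodule ℍ[ℝ]ᵐᵒᵖ (Fin n → ℍ[ℝ])) : Prop :=
  ∀ x ∈ M, (F x x).re ≤ 0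

/-- `M` is a maximal nonnegative subspace. -/
def IsMaxNonneg (F : (Fin n → ℍ[ℝ]) → (Fin n → ℍ[ℝ]) → ℍ[ℝ])
    (M : Submodule ℍ[ℝ]ᵐᵒᵖ (Fin n → ℍ[ℝ])) : Prop :=
  IsNonneg F M ∧ ∀ M', IsNonneg F M' → M ≤ M' → M' = M

/-- `M` is a maximal nonpositive subspace. -/
def IsMaxNonpos (F : (Fin n → ℍ[ℝ]) → (Fin n → ℍ[ℝ]) → ℍ[ℝ])
    (M : Submodule ℍ[ℝ]ᵐᵒᵖ (Fin n → ℍ[ℝ])) : Prop :=
  IsNonpos F M ∧ ∀ M', IsNonpos F M' → M ≤ M' → M' = M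

/-- `l` is an eigenvalue of the restriction of `A` to `M`: `A x = x l` for some nonzero `x ∈ M`. -/
def IsEigenvalueOn (A : Matrix (Fin n) (Fin n) ℍ[ℝ]) (M : Submodule ℍ[ℝ]ᵐᵒᵖ (Fin n → ℍ[ℝ]))
    (l : ℍ[ℝ]) : Prop :=
  ∃ x ∈ M, x ≠ 0 ∧ A *ᵥ x = MulOpposite.op l • x

/-- `S` is a set of eigenvalues of `A` with nonzero real parts, closed under similarity, and
containing no two opposite elements. -/
structure IsAdmissible (A : Matrix (Fin n) (Fin n) ℍ[ℝ]) (S : Set ℍ[ℝ]) : Prop where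
  /-- the elements are eigenvalues of `A` -/
  eig : ∀ l ∈ S, IsEigenvalueOn A ⊤ l
  /-- the real parts are nonzero -/
  re_ne : ∀ l ∈ S, l.re ≠ 0
  /-- `S` is closed under similarity -/
  sim : ∀ l ∈ S, ∀ q : ℍ[ℝ], q ≠ 0 → q⁻¹ * l * q ∈ S
  /-- `l ∈ S` implies `-l ∉ S` -/
  neg : ∀ l ∈ S, -l ∉ S

/-- `S` is a c-set of `A`. -/
def IsCSet (A : Matrix (Fin n) (Fin n) ℍ[ℝ]) (S : Set ℍ[ℝ]) : Prop :=
  IsAdmissible A S ∧ ∀ S', IsAdmissible A S' → S ⊆ S' → S' = S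

/-- The set of eigenvalues of the restriction of `A` to `M` with nonzero real part. -/
def offAxisEigenvalues (A : Matrix (Fin n) (Fin n) ℍ[ℝ])
    (M : Submodule ℍ[ℝ]ᵐᵒᵖ (Fin n → ℍ[ℝ])) : Set ℍ[ℝ] :=
  {l | IsEigenvalueOn A M l ∧ l.re ≠ 0}

end Q7.QuatHam
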