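import Mathlib
import Pool.Agent.Q7.QuatHamCore

/-!
# Quaternionic operators which are skew-adjoint for a real symmetric form: spectral part
-/

set_option autoImplicit false

namespace Q7.QuatHam

open Quaternion Matrix Polynomial Q7.SkewExtend

variable {n : ℕ} {A : Matrix (Fin n) (Fin n) ℍ[ℝ]}

/-- The sum of the root subspaces for the eigenvalues in `S`. -/
noncomputable def rootSum (A : Matrix (Fin n) (Fin n) ℍ[ℝ]) (S : Set ℍ[ℝ]) :
    Submodule ℝ (Fin n → ℍ[ℝ]) where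
  carrier := {x | ∃ f : ℝ[X], f ≠ 0 ∧ (∀ l : ℍ[ℝ], aeval l f = 0 → l ∈ S) ∧ aeval (opA A) f x = 0}
  add_mem' := by
    rintro x y ⟨f, hf, hfS, hfx⟩ ⟨g, hg, hgS, hgy⟩
    refine ⟨f * g, mul_ne_zero hf hg, fun l hl => ?_, ?_⟩
    · rw [map_mul] at hl
      rcases mul_eq_zero.1 hl with hl | hl
      · exact hfS l hl
      · exact hgS l hl
    · rw [map_add]
      have h1 : aeval (opA A) (f * g) x = 0 := by
        rw [mul_comm, map_mul, Module.End.mul_apply, hfx, map_zero]
      have h2 : aeval (opA A) (f * g) y = 0 := by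
        rw [map_mul, Module.End.mul_apply, hgy, map_zero]
      rw [h1, h2, add_zero]
  zero_mem' := ⟨1, one_ne_zero, fun l hl => by simp at hl, by rw [map_zero]⟩
  smul_mem' := by
    rintro r x ⟨f, hf, hfS, hfx⟩
    exact ⟨f, hf, hfS, by rw [map_smul, hfx, smul_zero]⟩

lemma mem_rootSum {S : Set ℍ[ℝ]} {x : Fin n → ℍ[ℝ]} : x ∈ rootSum A S ↔
    ∃ f : ℝ[X], f ≠ 0 ∧ (∀ l : ℍ[ℝ], aeval l f = 0 → l ∈ S) ∧ aeval (opA A) f x = 0 := Iff.rfl

lemma stable_rootSum (S : Set ℍ[ℝ]) : Stable (Ops A) (rootSum A S) := by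
  rw [stable_iff]
  constructor
  · rintro l x ⟨f, hf, hfS, hfx⟩
    exact ⟨f, hf, hfS, by rw [aeval_opR, hfx, map_zero]⟩
  · rintro x ⟨f, hf, hfS, hfx⟩
    refine ⟨f, hf, hfS, ?_⟩
    have h1 : aeval (opA A) f (opA A x) = aeval (opA A) (f * X) x := by
      rw [map_mul, aeval_X, Module.End.mul_apply]
    rw [h1, mul_comm, map_mul, aeval_X, Module.End.mul_apply, hfx, map_zero]

/-- The set `S` is closed under similarity. -/
def SimClosed (S : Set ℍ[ℝ]) : Prop := ∀ l ∈ S, ∀ q : ℍ[ℝ], q ≠ 0 → q⁻¹ * l * q ∈ S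

lemma SimClosed.quad {S : Set ℍ[ℝ]} (hS : SimClosed S) {l m : ℍ[ℝ]} (hl : l ∈ S)
    (h : aeval m (quad l) = 0) : m ∈ S := by
  obtain ⟨q, hq, hlq⟩ := exists_similar h
  have h1 := hS l hl q hq
  rwa [mul_assoc, hlq, ← mul_assoc, inv_mul_cancel₀ hq, one_mul] at h1

lemma quad_symm {l m : ℍ[ℝ]} (h : aeval m (quad l) = 0) : aeval l (quad m) = 0 := by
  obtain ⟨q, hq, hlq⟩ := exists_similar h
  have hm : m = q⁻¹ * l * q := by
    rw [mul_assoc, hlq, ← mul_assoc, inv_mul_cancel₀ hq, one_mul]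
  have hn : normSq m = normSq l := by
    rw [hm, map_mul, map_mul, map_inv₀]
    have : normSq q ≠ 0 := by rwa [ne_eq, normSq_eq_zero]
    field_simp
  have hr : m.re = l.re := by
    have h2 : (q⁻¹ * l * q).re = (q * (q⁻¹ * l)).re := by
      simp only [Quaternion.re_mul]
      ring
    rw [hm, h2, ← mul_assoc, mul_inv_cancel₀ hq, one_mul]
  have h3 := quad_root l
  rw [aeval_quad] at h3 ⊢
  rwa [hn, hr]

lemma quad_neg {l m : ℍ[ℝ]} (h : aeval m (quad l) = 0) : aeval (-m) (quad (-l)) = 0 := by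
  rw [aeval_quad] at h ⊢
  rw [normSq_neg, ← h]
  simp

lemma SimClosed.compl {S : Set ℍ[ℝ]} (hS : SimClosed S) {l m : ℍ[ℝ]} (hl : l ∉ S)
    (h : aeval m (Q7.QuatHam.quad l) = 0) : m ∉ S := fun hm => hl (hS.quad hm (quad_symm h))

/-- Splitting a polynomial according to its roots. -/
lemma exists_factor {S : Set ℍ[ℝ]} (hS : SimClosed S) (m : ℝ[X]) (hm : m ≠ 0) :
    ∃ f g : ℝ[X], m = f * g ∧ (∀ l : ℍ[ℝ], aeval l f = 0 → l ∈ S) ∧
      (∀ l : ℍ[ℝ], aeval l g = 0 → l ∉ S) := by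
  induction m using UniqueFactorizationMonoid.induction_on_prime with
  | h₁ => exact absurd rfl hm
  | h₂ m hu =>
    refine ⟨1, m, by rw [one_mul], fun l hl => ?_, fun l hl => ?_⟩
    · rw [map_one] at hl
      exact absurd hl one_ne_zero
    · obtain ⟨u, rfl⟩ := hu
      have h1 := congrArg (aeval l) u.mul_inv
      rw [map_mul, hl, zero_mul, map_one] at h1
      exact absurd h1 zero_ne_one
  | h₃ a p ha hp ih =>
    obtain ⟨f, g, rfl, hf, hg⟩ := ih ha
    have hirr : Irreducible p := hp.irreducible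
    -- all roots of `p` are similar
    have hroots : ∀ l l' : ℍ[ℝ], aeval l p = 0 → aeval l' p = 0 → aeval l' (quad l) = 0 := by
      intro l l' hl hl'
      have hdvd : p ∣ quad l := by
        rcases (EuclideanDomain.dvd_or_coprime p (quad l) hirr).symm with hc | hc
        · exfalso
          obtain ⟨u, v, huv⟩ := hc
          have h1 := congrArg (aeval l) huv
          rw [map_add, map_mul, map_mul, hl, quad_root, mul_zero, mul_zero, add_zero,
            map_one] at h1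
          exact zero_ne_one h1
        · exact hc
      obtain ⟨k, hk⟩ := hdvd
      rw [hk, map_mul, hl', zero_mul]
    by_cases hex : ∃ l, aeval l p = 0 ∧ l ∈ S
    · obtain ⟨l0, hl0, hl0S⟩ := hex
      refine ⟨p * f, g, by ring, fun l hl => ?_, hg⟩
      rw [map_mul] at hl
      rcases mul_eq_zero.1 hl with hl | hl
      · exact hS.quad hl0S (hroots l0 l hl0 hl)
      · exact hf l hl
    · push Not at hex
      refine ⟨f, p * g, by ring, hf, fun l hl => ?_⟩
      rw [map_mul] at hl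
      rcases mul_eq_zero.1 hl with hl | hl
      · exact hex l hl
      · exact hg l hl

/-- The root subspaces span everything. -/
lemma exists_decomp {S : Set ℍ[ℝ]} (hS : SimClosed S) (x : Fin n → ℍ[ℝ]) :
    ∃ y ∈ rootSum A S, ∃ z ∈ rootSum A Sᶜ, x = y + z := by
  have hm : minpoly ℝ (opA A) ≠ 0 := minpoly.ne_zero (Algebra.IsIntegral.isIntegral (opA A))
  obtain ⟨f, g, hfg, hf, hg⟩ := exists_factor hS _ hm
  have hf0 : f ≠ 0 := by
    rintro rfl
    exact hm (by rw [hfg, zero_mul])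
  have hg0 : g ≠ 0 := by
    rintro rfl
    exact hm (by rw [hfg, mul_zero])
  have hzero : aeval (opA A) (f * g) = 0 := by rw [← hfg, minpoly.aeval]
  obtain ⟨u, v, huv⟩ : IsCoprime f g :=
    coprime_of_no_root fun l hl hl' => hg l hl' (hf l hl)
  refine ⟨aeval (opA A) (v * g) x, ⟨f, hf0, hf, ?_⟩, aeval (opA A) (u * f) x,
    ⟨g, hg0, fun l hl => hg l hl, ?_⟩, ?_⟩
  · rw [← Module.End.mul_apply, ← map_mul, show f * (v * g) = v * (f * g) by ring, map_mul, hzero,
      mul_zero, LinearMap.zero_apply]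
  · rw [← Module.End.mul_apply, ← map_mul, show g * (u * f) = u * (f * g) by ring, map_mul, hzero,
      mul_zero, LinearMap.zero_apply]
  · rw [← LinearMap.add_apply, ← map_add, add_comm, huv, map_one, Module.End.one_apply]

variable {B : LinearMap.BilinForm ℝ (Fin n → ℍ[ℝ])}

lemma Data.adj_poly (h : Data B A) (f : ℝ[X]) (x y : Fin n → ℍ[ℝ]) :
    B (aeval (opA A) f x) y = B x (aeval (opA A) (f.comp (-X)) y) := by
  induction f using Polynomial.induction_on' with
  | add p q hp hq =>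
    rw [map_add, LinearMap.add_apply, map_add, LinearMap.add_apply, hp, hq, add_comp, map_add,
      LinearMap.add_apply, map_add]
  | monomial k a =>
    rw [monomial_comp, map_mul, aeval_C, aeval_monomial, Module.End.mul_apply, Module.End.mul_apply,
      Module.algebraMap_end_apply, Module.algebraMap_end_apply, map_smul, LinearMap.smul_apply,
      map_smul]
    congr 1
    induction k generalizing x with
    | zero => rw [pow_zero, pow_zero, map_one, Module.End.one_apply, Module.End.one_apply]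
    | succ k ih =>
      rw [pow_succ, Module.End.mul_apply, ih, pow_succ', map_mul, Module.End.mul_apply, map_neg,
        aeval_X, LinearMap.neg_apply, map_neg, h.skew, neg_neg]

lemma aeval_comp_neg (f : ℝ[X]) (l : ℍ[ℝ]) : aeval l (f.comp (-X)) = aeval (-l) f := by
  rw [aeval_comp, map_neg, aeval_X]

lemma Data.orth (h : Data B A) {f g : ℝ[X]} {x y : Fin n → ℍ[ℝ]} (hf : aeval (opA A) f x = 0)
    (hg : aeval (opA A) g y = 0) (hfg : ∀ l : ℍ[ℝ], aeval (-l) f = 0 → aeval l g ≠ 0) :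
    B x y = 0 := by
  obtain ⟨u, v, huv⟩ : IsCoprime (f.comp (-X)) g :=
    coprime_of_no_root fun l hl => hfg l (by rwa [aeval_comp_neg] at hl)
  have h1 : y = aeval (opA A) (f.comp (-X)) (aeval (opA A) u y) := by
    have h2 := congrArg (fun p => aeval (opA A) p y) huv
    simp only [map_add, LinearMap.add_apply, map_mul, Module.End.mul_apply, hg, map_zero, add_zero,
      map_one, Module.End.one_apply] at h2
    conv_lhs => rw [← h2]
    rw [← Module.End.mul_apply, ← Module.End.mul_apply, ← map_mul, ← map_mul, mul_comm]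
  rw [h1, ← h.adj_poly, hf, map_zero, LinearMap.zero_apply]

/-- The extension theorem, with prescribed eigenvalues off the imaginary axis. -/
theorem Data.extend_spec (h : Data B A) {N : Submodule ℝ (Fin n → ℍ[ℝ])}
    (hN : Stable (Ops A) N) (hN0 : ∀ x ∈ N, ∀ y ∈ N, B x y = 0)
    (hrad : ∀ x, (∀ y, B x y = 0) → opA A x = 0) {S : Set ℍ[ℝ]} (hSs : SimClosed S)
    (hSneg : ∀ l ∈ S, -l ∉ S) (hSre : ∀ l ∈ S, l.re ≠ 0)
    (hSeig : ∀ l ∈ S, ∃ x : Fin n → ℍ[ℝ], x ≠ 0 ∧ opA A x = opR l x)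
    (hSmax : ∀ l : ℍ[ℝ], l.re ≠ 0 → (∃ x : Fin n → ℍ[ℝ], x ≠ 0 ∧ opA A x = opR l x) → l ∉ S →
      -l ∈ S)
    (hS0 : ∀ l : ℍ[ℝ], l.re ≠ 0 → (∃ x ∈ N, x ≠ 0 ∧ opA A x = opR l x) → l ∈ S) :
    ∃ L, N ≤ L ∧ Stable (Ops A) L ∧ NonnegOn B L ∧
      (∀ L' : Submodule ℝ (Fin n → ℍ[ℝ]), NonnegOn B L' → L ≤ L' → L' = L) ∧
      ∀ l : ℍ[ℝ], l.re ≠ 0 → ((∃ x ∈ L, x ≠ 0 ∧ opA A x = opR l x) ↔ l ∈ S) := by
  -- `rootSum S` is neutral
  have hV : ∀ x ∈ rootSum A S, ∀ y ∈ rootSum A S, B x y = 0 := by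
    rintro x ⟨f, hf, hfS, hfx⟩ y ⟨g, hg, hgS, hgy⟩
    exact h.orth hfx hgy fun l hl hl' => hSneg l (hgS l hl') (hfS _ hl)
  -- `N` is orthogonal to it
  have hNV : ∀ x ∈ N, ∀ y ∈ rootSum A S, B x y = 0 := by
    rintro x hx y ⟨g, hg, hgS, hgy⟩
    obtain ⟨f, hf, hfx, hmin⟩ := exists_min_poly (A := A) ⊥ x
    refine h.orth ((Submodule.mem_bot ℝ).1 hfx) hgy fun l hl hl' => ?_
    obtain ⟨x', hx', hx0, hx1⟩ := exists_eigen_of_root (S := ⊥) (T := N)
      (fun T _ x hx => by rw [(Submodule.mem_bot ℝ).1 hx, map_zero]; exact Submodule.zero_mem _) hN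
      hx hf hfx hmin hl
    rw [Submodule.mem_bot] at hx0 hx1
    have hlS : l ∈ S := hgS l hl'
    have h1 : -l ∈ S := hS0 (-l) (by
      have := hSre l hlS
      simpa using this) ⟨x', hx', hx0, sub_eq_zero.1 hx1⟩
    exact hSneg l hlS h1
  have hNs : Stable (Ops A) (N ⊔ rootSum A S) := hN.sup (stable_rootSum S)
  have hNn : NonnegOn B (N ⊔ rootSum A S) := by
    intro x hx
    obtain ⟨y, hy, z, hz, rfl⟩ := Submodule.mem_sup.1 hx
    rw [orth_add h.good (hNV y hy z hz), hN0 y hy y hy, hV z hz z hz, add_zero]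
  obtain ⟨L, hNL, hLs, hLn, hLmax⟩ := exists_stable_maximal h.good hNs hNn
  refine ⟨L, le_sup_left.trans hNL, hLs, hLn, hLmax, fun l hl => ⟨?_, fun hlS => ?_⟩⟩
  · rintro ⟨x, hx, hx0, hxl⟩
    by_contra hlS
    have hnl : -l ∈ S := hSmax l hl ⟨x, hx0, hxl⟩ hlS
    have hquad : aeval (opA A) (quad l) x = 0 := by
      have e1 : opA A (opA A x) = opR (l * l) x := by rw [hxl, opA_opR, hxl, opR_opR]
      rw [aeval_quad_op, e1, hxl, ← opR_coe (2 * l.re), opR_opR, ← self_add_star',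
        ← opR_coe (normSq l), ← self_mul_star]
      rw [sub_add, sub_eq_zero, mul_add, opR_add, add_sub_cancel_right]
    have hperp : ∀ y, B x y = 0 := by
      intro y
      obtain ⟨y1, hy1, y2, ⟨g, hg, hgS, hgy⟩, rfl⟩ := exists_decomp (A := A) hSs y
      rw [map_add]
      have h1 : B x y1 = 0 := by
        rw [h.symm]
        exact cauchy h.good hLn (hNL (Submodule.mem_sup_right hy1)) hx (hV y1 hy1 y1 hy1)
      have h2 : B x y2 = 0 := by
        refine h.orth hquad hgy fun m hm hm' => ?_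
        have h3 : m ∈ S := by
          have := hSs.quad hnl (quad_neg hm)
          rwa [neg_neg] at this
        exact hgS m hm' h3
      rw [h1, h2, add_zero]
    have h4 := hrad x hperp
    rw [hxl] at h4
    have hl0 : l ≠ 0 := by
      rintro rfl
      exact hl rfl
    exact opR_ne_zero hl0 hx0 h4
  · obtain ⟨x, hx0, hxl⟩ := hSeig l hlS
    refine ⟨x, hNL (Submodule.mem_sup_right ⟨quad l, quad_ne_zero l, fun m hm => hSs.quad hlS hm,
      ?_⟩), hx0, hxl⟩
    have e1 : opA A (opA A x) = opR (l * l) x := by rw [hxl, opA_opR, hxl, opR_opR]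
    rw [aeval_quad_op, e1, hxl, ← opR_coe (2 * l.re), opR_opR, ← self_add_star',
      ← opR_coe (normSq l), ← self_mul_star]
    rw [sub_add, sub_eq_zero, mul_add, opR_add, add_sub_cancel_right]

end Q7.QuatHam
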