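import Mathlib
import Pool.Agent.Q7.QuatHamDefs
import Pool.Agent.Q7.QuatHamSpec

/-!
# The extension theorems for `H`-Hamiltonian quaternionic matrices
-/

set_option autoImplicit false

namespace Q7.QuatHam

open Quaternion Matrix Polynomial Q7.SkewExtend

variable {n : ℕ} {A : Matrix (Fin n) (Fin n) ℍ[ℝ]}

/-- The underlying real subspace. -/
def toReal (M : Submodule ℍ[ℝ]ᵐᵒᵖ (Fin n → ℍ[ℝ])) : Submodule ℝ (Fin n → ℍ[ℝ]) where
  carrier := M
  add_mem' := M.add_mem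
  zero_mem' := M.zero_mem
  smul_mem' r x hx := by
    have := M.smul_mem (MulOpposite.op (r : ℍ[ℝ])) hx
    rwa [← opR_apply, opR_coe] at this

lemma mem_toReal {M : Submodule ℍ[ℝ]ᵐᵒᵖ (Fin n → ℍ[ℝ])} {x : Fin n → ℍ[ℝ]} :
    x ∈ toReal M ↔ x ∈ M := Iff.rfl

/-- A stable real subspace is a right subspace. -/
def ofReal (W : Submodule ℝ (Fin n → ℍ[ℝ])) (hW : Stable (Ops A) W) :
    Submodule ℍ[ℝ]ᵐᵒᵖ (Fin n → ℍ[ℝ]) where
  carrier := W
  add_mem' := W.add_mem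
  zero_mem' := W.zero_mem
  smul_mem' l _ hx := Stable.opR hW l.unop hx

lemma mem_ofReal {W : Submodule ℝ (Fin n → ℍ[ℝ])} {hW : Stable (Ops A) W} {x : Fin n → ℍ[ℝ]} :
    x ∈ ofReal W hW ↔ x ∈ W := Iff.rfl

lemma stable_toReal {M : Submodule ℍ[ℝ]ᵐᵒᵖ (Fin n → ℍ[ℝ])} (h : IsInvariant A M) :
    Stable (Ops A) (toReal M) :=
  stable_iff.2 ⟨fun l _ hx => M.smul_mem (MulOpposite.op l) hx, h⟩

/-- Q1, one sign, for a general form. -/
theorem extend_of_data {B : LinearMap.BilinForm ℝ (Fin n → ℍ[ℝ])} (h : Data B A)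
    {N : Submodule ℍ[ℝ]ᵐᵒᵖ (Fin n → ℍ[ℝ])} (hN : IsInvariant A N)
    (hN0 : ∀ x ∈ N, ∀ y ∈ N, B x y = 0) :
    ∃ L : Submodule ℍ[ℝ]ᵐᵒᵖ (Fin n → ℍ[ℝ]), N ≤ L ∧ IsInvariant A L ∧ (∀ x ∈ L, 0 ≤ B x x) ∧
      ∀ L' : Submodule ℍ[ℝ]ᵐᵒᵖ (Fin n → ℍ[ℝ]), (∀ x ∈ L', 0 ≤ B x x) → L ≤ L' → L' = L := by
  obtain ⟨L, hNL, hLs, hLn, hmax⟩ := exists_stable_maximal h.good (stable_toReal hN)
    (fun x hx => (hN0 x hx x hx).ge)
  refine ⟨ofReal L hLs, hNL, fun x hx => Stable.opA hLs hx, hLn, fun L' hL' hle => ?_⟩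
  have h1 := hmax (toReal L') hL' hle
  ext x
  rw [← mem_toReal, h1, mem_ofReal]

/-- Q2, one sign, for a general form. -/
theorem extend_spec_of_data {B : LinearMap.BilinForm ℝ (Fin n → ℍ[ℝ])} (h : Data B A)
    (hrad : ∀ x, (∀ y, B x y = 0) → A *ᵥ x = 0)
    {N : Submodule ℍ[ℝ]ᵐᵒᵖ (Fin n → ℍ[ℝ])} (hN : IsInvariant A N)
    (hN0 : ∀ x ∈ N, ∀ y ∈ N, B x y = 0) {S : Set ℍ[ℝ]} (hS : IsCSet A S)
    (hS0 : offAxisEigenvalues A N ⊆ S) :
    ∃ L : Submodule ℍ[ℝ]ᵐᵒᵖ (Fin n → ℍ[ℝ]), N ≤ L ∧ IsInvariant A L ∧ (∀ x ∈ L, 0 ≤ B x x) ∧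
      (∀ L' : Submodule ℍ[ℝ]ᵐᵒᵖ (Fin n → ℍ[ℝ]), (∀ x ∈ L', 0 ≤ B x x) → L ≤ L' → L' = L) ∧
      offAxisEigenvalues A L = S := by
  obtain ⟨hSa, hSmax⟩ := hS
  have hmaxS : ∀ l : ℍ[ℝ], l.re ≠ 0 → (∃ x : Fin n → ℍ[ℝ], x ≠ 0 ∧ opA A x = opR l x) → l ∉ S →
      -l ∈ S := by
    rintro l hl ⟨x, hx0, hxl⟩ hlS
    by_contra hneg
    have hadm : IsAdmissible A (S ∪ {m | ∃ q : ℍ[ℝ], q ≠ 0 ∧ m = q⁻¹ * l * q}) := by
      have hre : ∀ q : ℍ[ℝ], q ≠ 0 → (q⁻¹ * l * q).re = l.re := by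
        intro q hq
        have h2 : (q⁻¹ * l * q).re = (q * (q⁻¹ * l)).re := by
          simp only [Quaternion.re_mul]
          ring
        rw [h2, ← mul_assoc, mul_inv_cancel₀ hq, one_mul]
      have hback : ∀ m q : ℍ[ℝ], q ≠ 0 → m = q⁻¹ * l * q → l = q * m * q⁻¹ := by
        rintro m q hq rfl
        have h3 : q * (q⁻¹ * l * q) * q⁻¹ = (q * q⁻¹) * l * (q * q⁻¹) := by noncomm_ring
        rw [h3, mul_inv_cancel₀ hq, mul_one, one_mul]
      refine ⟨?_, ?_, ?_, ?_⟩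
      · rintro m (hm | ⟨q, hq, rfl⟩)
        · exact hSa.eig m hm
        · refine ⟨opR q x, Submodule.mem_top, opR_ne_zero hq hx0, ?_⟩
          rw [← opA_apply, opA_opR, hxl, ← opR_apply, opR_opR, opR_opR]
          congr 1
          rw [← mul_assoc, ← mul_assoc, mul_inv_cancel₀ hq, one_mul]
      · rintro m (hm | ⟨q, hq, rfl⟩)
        · exact hSa.re_ne m hm
        · rwa [hre q hq]
      · rintro m (hm | ⟨q, hq, rfl⟩) p hp
        · exact Or.inl (hSa.sim m hm p hp)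
        · refine Or.inr ⟨q * p, mul_ne_zero hq hp, ?_⟩
          rw [_root_.mul_inv_rev]
          noncomm_ring
      · rintro m (hm | ⟨q, hq, rfl⟩) (hm' | ⟨p, hp, hm'⟩)
        · exact hSa.neg m hm hm'
        · apply hneg
          have h1 := hback (-m) p hp hm'
          have h2 := hSa.sim m hm p⁻¹ (inv_ne_zero hp)
          rw [inv_inv] at h2
          rw [h1]
          convert h2 using 1
          noncomm_ring
        · apply hneg
          have h2 := hSa.sim _ hm' q⁻¹ (inv_ne_zero hq)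
          rw [inv_inv] at h2
          have h1 := hback _ q hq rfl
          convert h2 using 1
          rw [mul_neg, neg_mul, ← h1]
        · have h1 := congrArg (fun q : ℍ[ℝ] => q.re) hm'
          simp only [Quaternion.re_neg] at h1
          rw [hre q hq, hre p hp] at h1
          exact hl (by linarith)
    have h1 := hSmax _ hadm Set.subset_union_left
    apply hlS
    rw [← h1]
    exact Or.inr ⟨1, one_ne_zero, by rw [inv_one, one_mul, mul_one]⟩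
  obtain ⟨L, hNL, hLs, hLn, hmax, hspec⟩ := h.extend_spec (stable_toReal hN) hN0 hrad
    (S := S) hSa.sim hSa.neg hSa.re_ne
    (fun l hl => by
      obtain ⟨x, -, hx0, hxl⟩ := hSa.eig l hl
      exact ⟨x, hx0, hxl⟩) hmaxS
    (fun l hl ⟨x, hx, hx0, hxl⟩ => hS0 ⟨⟨x, hx, hx0, hxl⟩, hl⟩)
  refine ⟨ofReal L hLs, hNL, fun x hx => Stable.opA hLs hx, hLn, fun L' hL' hle => ?_, ?_⟩
  · have h1 := hmax (toReal L') hL' hle
    ext x
    rw [← mem_toReal, h1, mem_ofReal]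
  · ext l
    constructor
    · rintro ⟨⟨x, hx, hx0, hxl⟩, hl⟩
      exact (hspec l hl).1 ⟨x, hx, hx0, hxl⟩
    · intro hl
      obtain ⟨x, hx, hx0, hxl⟩ := (hspec l (hSa.re_ne l hl)).2 hl
      exact ⟨⟨x, hx, hx0, hxl⟩, hSa.re_ne l hl⟩

/-- The real form `(x, y) ↦ Re (x^* G y)`. -/
noncomputable def reForm (G : Matrix (Fin n) (Fin n) ℍ[ℝ]) :
    LinearMap.BilinForm ℝ (Fin n → ℍ[ℝ]) :=
  LinearMap.mk₂ ℝ (fun x y => (starForm G x y).re)
    (by intro x y z; simp [starForm, add_dotProduct])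
    (by
      intro r x y
      have h1 : star (r • x) = r • star x := by
        ext i : 1
        simp
      simp [starForm, h1, smul_dotProduct])
    (by intro x y z; simp [starForm, mulVec_add, dotProduct_add])
    (by intro r x y; simp [starForm, mulVec_smul, dotProduct_smul])

lemma reForm_apply (G : Matrix (Fin n) (Fin n) ℍ[ℝ]) (x y : Fin n → ℍ[ℝ]) :
    reForm G x y = (starForm G x y).re := rfl

lemma starForm_opR_right (G : Matrix (Fin n) (Fin n) ℍ[ℝ]) (x y : Fin n → ℍ[ℝ]) (l : ℍ[ℝ]) :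
    starForm G x (opR l y) = starForm G x y * l := by
  rw [starForm, starForm, opR_apply, mulVec_smul]
  simp only [dotProduct, Pi.smul_apply, op_smul_eq_mul, Finset.sum_mul, mul_assoc]

lemma starForm_opR_left (G : Matrix (Fin n) (Fin n) ℍ[ℝ]) (x y : Fin n → ℍ[ℝ]) (l : ℍ[ℝ]) :
    starForm G (opR l x) y = star l * starForm G x y := by
  rw [starForm, starForm, opR_apply]
  simp only [dotProduct, Pi.star_apply, Pi.smul_apply, op_smul_eq_mul, star_mul, Finset.mul_sum,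
    mul_assoc]

lemma re_mul_comm (a b : ℍ[ℝ]) : (a * b).re = (b * a).re := by
  simp only [Quaternion.re_mul]
  ring

lemma data_of {G : Matrix (Fin n) (Fin n) ℍ[ℝ]} (hG : Gᴴ = G) (hA : G * A = -(Aᴴ * G)) :
    Data (reForm G) A := by
  refine ⟨fun x y => ?_, fun x y l => ?_, fun x y => ?_, fun x l => ?_⟩
  · rw [reForm_apply, reForm_apply]
    have h1 : starForm G x y = star (starForm G y x) := by
      rw [starForm, starForm, ← star_dotProduct_star, star_star, star_mulVec, hG,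
        ← dotProduct_mulVec]
    rw [h1, Quaternion.re_star]
  · rw [reForm_apply, reForm_apply, starForm_opR_right, starForm_opR_left, star_star, re_mul_comm]
  · rw [reForm_apply, reForm_apply, opA_apply, opA_apply, starForm, starForm, mulVec_mulVec, hA,
      star_mulVec, ← dotProduct_mulVec, mulVec_mulVec, neg_mulVec, dotProduct_neg,
      Quaternion.re_neg]
  · rw [reForm_apply, reForm_apply, starForm_opR_right, starForm_opR_left, re_mul_comm,
      ← mul_assoc, self_mul_star, Quaternion.coe_mul_eq_smul, Quaternion.re_smul, smul_eq_mul]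

lemma rad_of {G : Matrix (Fin n) (Fin n) ℍ[ℝ]} (hG : Gᴴ = G) (hA : G * A = -(Aᴴ * G))
    {x : Fin n → ℍ[ℝ]} (hx : ∀ y, reForm G x y = 0) : G *ᵥ x = 0 := by
  ext i : 1
  have h1 := hx (Pi.single i ((G *ᵥ x) i))
  rw [(data_of hG hA).symm, reForm_apply, starForm] at h1
  have h2 : star (Pi.single i ((G *ᵥ x) i) : Fin n → ℍ[ℝ]) ⬝ᵥ (G *ᵥ x) =
      star ((G *ᵥ x) i) * (G *ᵥ x) i := by
    rw [← Pi.single_star, single_dotProduct]
  rw [h2, star_mul_self, Quaternion.re_coe, normSq_eq_zero] at h1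
  exact h1

lemma neg_reForm (G : Matrix (Fin n) (Fin n) ℍ[ℝ]) : reForm (-G) = -reForm G := by
  refine LinearMap.ext fun x => LinearMap.ext fun y => ?_
  rw [reForm_apply, LinearMap.neg_apply, LinearMap.neg_apply, reForm_apply, starForm, starForm,
    neg_mulVec, dotProduct_neg, Quaternion.re_neg]

/-- The setting of the problem. -/
lemma hermitian_of {H : Matrix (Fin n) (Fin n) ℍ[ℝ]} (hH : Hᴴ = -H) (hA : H * A = -(Aᴴ * H)) :
    (H * A)ᴴ = H * A ∧ (H * A) * A = -(Aᴴ * (H * A)) := by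
  constructor
  · rw [conjTranspose_mul, hH, mul_neg, hA]
  · rw [← Matrix.mul_assoc Aᴴ, ← neg_mul, ← hA]

lemma neutral_re {G : Matrix (Fin n) (Fin n) ℍ[ℝ]} {N : Submodule ℍ[ℝ]ᵐᵒᵖ (Fin n → ℍ[ℝ])}
    (hN : IsNeutral (starForm G) N) : ∀ x ∈ N, ∀ y ∈ N, reForm G x y = 0 := by
  intro x hx y hy
  rw [reForm_apply, hN x hx y hy, Quaternion.re_zero]

theorem q1 {H : Matrix (Fin n) (Fin n) ℍ[ℝ]} (hH : Hᴴ = -H) (hA : H * A = -(Aᴴ * H))
    {N : Submodule ℍ[ℝ]ᵐᵒᵖ (Fin n → ℍ[ℝ])} (hN : IsInvariant A N)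
    (hN0 : IsNeutral (starForm (H * A)) N) :
    (∃ L, N ≤ L ∧ IsInvariant A L ∧ IsMaxNonneg (starForm (H * A)) L) ∧
      ∃ L, N ≤ L ∧ IsInvariant A L ∧ IsMaxNonpos (starForm (H * A)) L := by
  obtain ⟨h1, h2⟩ := hermitian_of hH hA
  constructor
  · obtain ⟨L, hNL, hL, hL0, hmax⟩ := extend_of_data (data_of h1 h2) hN (neutral_re hN0)
    exact ⟨L, hNL, hL, hL0, hmax⟩
  · have h1' : (-(H * A))ᴴ = -(H * A) := by rw [conjTranspose_neg, h1]
    have h2' : -(H * A) * A = -(Aᴴ * -(H * A)) := by rw [mul_neg, neg_mul, h2]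
    obtain ⟨L, hNL, hL, hL0, hmax⟩ := extend_of_data (data_of h1' h2') hN
      (fun x hx y hy => by
        rw [neg_reForm, LinearMap.neg_apply, LinearMap.neg_apply, neutral_re hN0 x hx y hy,
          neg_zero])
    refine ⟨L, hNL, hL, fun x hx => ?_, fun L' hL' hle => hmax L' (fun x hx => ?_) hle⟩
    · have := hL0 x hx
      rw [neg_reForm, LinearMap.neg_apply, LinearMap.neg_apply] at this
      exact neg_nonneg.1 this
    · rw [neg_reForm, LinearMap.neg_apply, LinearMap.neg_apply]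
      exact neg_nonneg.2 (hL' x hx)

theorem q2 {H : Matrix (Fin n) (Fin n) ℍ[ℝ]} (hHu : IsUnit H) (hH : Hᴴ = -H)
    (hA : H * A = -(Aᴴ * H)) {N : Submodule ℍ[ℝ]ᵐᵒᵖ (Fin n → ℍ[ℝ])} (hN : IsInvariant A N)
    (hN0 : IsNeutral (starForm (H * A)) N) {S : Set ℍ[ℝ]} (hS : IsCSet A S)
    (hS0 : offAxisEigenvalues A N ⊆ S) :
    (∃ L, N ≤ L ∧ IsInvariant A L ∧ IsMaxNonneg (starForm (H * A)) L ∧
      offAxisEigenvalues A L = S) ∧
      ∃ L, N ≤ L ∧ IsInvariant A L ∧ IsMaxNonpos (starForm (H * A)) L ∧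
        offAxisEigenvalues A L = S := by
  obtain ⟨h1, h2⟩ := hermitian_of hH hA
  have hinj : ∀ x : Fin n → ℍ[ℝ], (H * A) *ᵥ x = 0 → A *ᵥ x = 0 := by
    intro x hx
    obtain ⟨u, rfl⟩ := hHu
    rw [← mulVec_mulVec] at hx
    have h3 := congrArg (fun v => (↑u⁻¹ : Matrix (Fin n) (Fin n) ℍ[ℝ]) *ᵥ v) hx
    simp only [mulVec_mulVec, mulVec_zero] at h3
    rwa [Units.inv_mul_cancel_left] at h3
  constructor
  · obtain ⟨L, hNL, hL, hL0, hmax, hspec⟩ := extend_spec_of_data (data_of h1 h2)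
      (fun x hx => hinj x (rad_of h1 h2 hx)) hN (neutral_re hN0) hS hS0
    exact ⟨L, hNL, hL, ⟨hL0, hmax⟩, hspec⟩
  · have h1' : (-(H * A))ᴴ = -(H * A) := by rw [conjTranspose_neg, h1]
    have h2' : -(H * A) * A = -(Aᴴ * -(H * A)) := by rw [mul_neg, neg_mul, h2]
    obtain ⟨L, hNL, hL, hL0, hmax, hspec⟩ := extend_spec_of_data (data_of h1' h2')
      (fun x hx => hinj x (by
        have := rad_of h1' h2' hx
        rwa [neg_mulVec, neg_eq_zero] at this)) hN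
      (fun x hx y hy => by
        rw [neg_reForm, LinearMap.neg_apply, LinearMap.neg_apply, neutral_re hN0 x hx y hy,
          neg_zero]) hS hS0
    refine ⟨L, hNL, hL, ⟨fun x hx => ?_, fun L' hL' hle => hmax L' (fun x hx => ?_) hle⟩, hspec⟩
    · have := hL0 x hx
      rw [neg_reForm, LinearMap.neg_apply, LinearMap.neg_apply] at this
      exact neg_nonneg.1 this
    · rw [neg_reForm, LinearMap.neg_apply, LinearMap.neg_apply]
      exact neg_nonneg.2 (hL' x hx)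

end Q7.QuatHam
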