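import Mathlib
import Pool.Agent.Q7.QuatHamMain

/-!
# Nonstandard involutions of the quaternions
-/

set_option autoImplicit false

namespace Q7.QuatHam

open Quaternion Matrix Polynomial

/-- `φ` is a nonstandard involution. -/
structure IsNonstandardInvolution (φ : ℍ[ℝ] →ₗ[ℝ] ℍ[ℝ]) : Prop where
  /-- `φ` is anti-multiplicative -/
  mul : ∀ x y, φ (x * y) = φ y * φ x
  /-- `φ` is involutive -/
  invol : ∀ x, φ (φ x) = x
  /-- `φ` is not the quaternion conjugation -/
  ne_star : ∃ x, φ x ≠ star x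

variable {φ : ℍ[ℝ] →ₗ[ℝ] ℍ[ℝ]}

lemma phi_one (h : IsNonstandardInvolution φ) : φ 1 = 1 := by
  have h1 := h.mul 1 (φ 1)
  rw [one_mul, h.invol, one_mul] at h1
  exact h1.symm

lemma phi_coe (h : IsNonstandardInvolution φ) (r : ℝ) : φ (r : ℍ[ℝ]) = r := by
  have h1 : (r : ℍ[ℝ]) = r • (1 : ℍ[ℝ]) := by
    rw [← Quaternion.coe_mul_eq_smul, mul_one]
  rw [h1, map_smul, phi_one h]

lemma phi_quad (h : IsNonstandardInvolution φ) (q : ℍ[ℝ]) : aeval (φ q) (quad q) = 0 := by
  have h1 := congrArg φ (quad_root q)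
  rw [aeval_quad, map_add, map_sub, h.mul, h.mul, phi_coe h, phi_coe h, map_zero] at h1
  rw [aeval_quad, Quaternion.coe_commutes]
  exact h1

lemma re_of_quad {l m : ℍ[ℝ]} (h : aeval m (quad l) = 0) : m.re = l.re := by
  obtain ⟨q, hq, hlq⟩ := exists_similar h
  have hm : m = q⁻¹ * l * q := by
    rw [mul_assoc, hlq, ← mul_assoc, inv_mul_cancel₀ hq, one_mul]
  have h2 : (q⁻¹ * l * q).re = (q * (q⁻¹ * l)).re := by
    simp only [Quaternion.re_mul]
    ring
  rw [hm, h2, ← mul_assoc, mul_inv_cancel₀ hq, one_mul]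

lemma phi_re (h : IsNonstandardInvolution φ) (q : ℍ[ℝ]) : (φ q).re = q.re :=
  re_of_quad (phi_quad h q)

lemma phi_star (h : IsNonstandardInvolution φ) (q : ℍ[ℝ]) : φ (star q) = star (φ q) := by
  have h1 : star q = (2 * q.re : ℝ) - q := by
    rw [← self_add_star']
    abel
  have h2 : star (φ q) = (2 * (φ q).re : ℝ) - φ q := by
    rw [← self_add_star']
    abel
  rw [h1, h2, map_sub, phi_coe h, phi_re h]

/-- A quaternion commuting with a nonzero pure quaternion. -/
lemma eq_of_commute {b q : ℍ[ℝ]} (hb : star b = -b) (hb1 : b * b = -1) (h : q * b = b * q) :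
    ∃ r s : ℝ, q = r + s * b := by
  set u := q - star q with hu
  have h1 : star q * b = b * star q := by
    have := congrArg star h
    rw [star_mul, star_mul, hb, neg_mul, mul_neg] at this
    exact (neg_injective this).symm
  have h2 : u * b = b * u := by rw [hu, sub_mul, mul_sub, h, h1]
  have h3 : star u = -u := by rw [hu, star_sub, star_star, neg_sub]
  have h4 : star (u * b) = u * b := by
    rw [star_mul, hb, h3, neg_mul_neg, h2]
  have h5 : u * b = ((u * b).re : ℝ) := by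
    have := self_add_star' (u * b)
    rw [h4] at this
    have h6 : ((2 * (u * b).re : ℝ) : ℍ[ℝ]) = ((u * b).re : ℝ) + ((u * b).re : ℝ) := by
      rw [← Quaternion.coe_add, ← two_mul]
    rw [h6] at this
    ext
    · rfl
    · have := congrArg (fun q : ℍ[ℝ] => q.imI) this
      simp at this
      simpa using this
    · have := congrArg (fun q : ℍ[ℝ] => q.imJ) this
      simp at this
      simpa using this
    · have := congrArg (fun q : ℍ[ℝ] => q.imK) this
      simp at this
      simpa using this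
  have h6 : u = -(((u * b).re : ℝ) * b) := by
    rw [← h5, mul_assoc, hb1, mul_neg_one, neg_neg]
  refine ⟨q.re, -(u * b).re / 2, ?_⟩
  have h7 : q + q = (2 * q.re : ℝ) + u := by
    rw [hu, ← self_add_star']
    abel
  have h8 : (2 : ℝ) • q = (2 : ℝ) • ((q.re : ℍ[ℝ]) + ((-(u * b).re / 2 : ℝ) : ℍ[ℝ]) * b) := by
    rw [two_smul, h7, smul_add, ← Quaternion.coe_mul_eq_smul, ← Quaternion.coe_mul_eq_smul,
      ← mul_assoc, ← Quaternion.coe_mul, ← Quaternion.coe_mul,
      show (2 : ℝ) * (-(u * b).re / 2) = -(u * b).re by ring, Quaternion.coe_neg, neg_mul, ← h6]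
  exact smul_right_injective _ (two_ne_zero) h8

/-- The form of nonstandard involutions. -/
lemma phi_eq (h : IsNonstandardInvolution φ) {b : ℍ[ℝ]} (hb : φ b = -b) (hb1 : ‖b‖ = 1) :
    star b = -b ∧ b * b = -1 ∧ ∀ q, φ q = b * star q * b⁻¹ := by
  have hre : b.re = 0 := by
    have h1 := phi_re h b
    rw [hb, Quaternion.re_neg] at h1
    linarith
  have hsb : star b = -b := by
    have h1 := self_add_star' b
    rw [hre, mul_zero, Quaternion.coe_zero] at h1
    exact (neg_eq_of_add_eq_zero_right h1).symm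
  have hbb : b * b = -1 := by
    have h1 := self_mul_star b
    rw [hsb, mul_neg, Quaternion.normSq_eq_norm_mul_self, hb1, mul_one, Quaternion.coe_one] at h1
    rw [← h1, neg_neg]
  have hinv : b⁻¹ = -b := by
    rw [inv_eq_iff_eq_inv]
    apply eq_inv_of_mul_eq_one_left
    rw [mul_neg, hbb, neg_neg]
  refine ⟨hsb, hbb, ?_⟩
  -- the automorphism
  set ψ : ℍ[ℝ] → ℍ[ℝ] := fun q => φ (star q) with hψ
  have hψb : ψ b = b := by rw [hψ]; simp only [hsb, map_neg, hb, neg_neg]
  have hψm : ∀ x y, ψ (x * y) = ψ x * ψ y := fun x y => by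
    simp only [hψ, star_mul, h.mul]
  have hψa : ∀ x y, ψ (x + y) = ψ x + ψ y := fun x y => by
    simp only [hψ, star_add, map_add]
  have hψψ : ∀ x, ψ (ψ x) = x := fun x => by
    simp only [hψ]
    rw [← phi_star h, star_star, h.invol]
  have hψr : ∀ r : ℝ, ψ (r : ℍ[ℝ]) = r := fun r => by
    simp only [hψ, Quaternion.star_coe, phi_coe h]
  have hcomm : ∀ q, q * b = b * q → ψ q = q := by
    intro q hq
    obtain ⟨r, s, rfl⟩ := eq_of_commute hsb hbb hq
    rw [hψa, hψm, hψr, hψr, hψb]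
  -- decomposition
  have hdec : ∀ q, (2 : ℝ) • q = (q - b * q * b) + (q + b * q * b) := fun q => by
    rw [two_smul]
    abel
  have hplus : ∀ q, (q - b * q * b) * b = b * (q - b * q * b) := fun q => by
    have e1 : (q - b * q * b) * b = q * b - b * q * (b * b) := by noncomm_ring
    have e2 : b * (q - b * q * b) = b * q - (b * b) * (q * b) := by noncomm_ring
    rw [e1, e2, hbb]
    noncomm_ring
  have hminus : ∀ q, (q + b * q * b) * b = -(b * (q + b * q * b)) := fun q => by
    have e1 : (q + b * q * b) * b = q * b + b * q * (b * b) := by noncomm_ring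
    have e2 : b * (q + b * q * b) = b * q + (b * b) * (q * b) := by noncomm_ring
    rw [e1, e2, hbb]
    noncomm_ring
  have hanti : ∀ v, v * b = -(b * v) → ψ v = -v := by
    intro v hv
    by_contra hne
    set w := v + ψ v with hw
    have hw0 : w ≠ 0 := by
      intro h0
      apply hne
      exact (neg_eq_of_add_eq_zero_right h0).symm
    have hww : ψ w = w := by rw [hw, hψa, hψψ, add_comm]
    have hψv : ψ v * b = -(b * ψ v) := by
      have h1 := congrArg ψ hv
      have h2 : ψ (-(b * v)) = -(ψ (b * v)) := by simp only [hψ, star_neg, map_neg]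
      rw [h2, hψm, hψm, hψb] at h1
      exact h1
    have hwb : w * b = -(b * w) := by
      rw [hw, add_mul, mul_add, hv, hψv, neg_add]
    -- everything is fixed
    obtain ⟨x, hx⟩ := h.ne_star
    have hfix : ∀ q, q * b = -(b * q) → ψ q = q := by
      intro q hq
      have h1 : (q * w) * b = b * (q * w) := by
        rw [mul_assoc, hwb, mul_neg, ← mul_assoc, hq, neg_mul, neg_neg, mul_assoc]
      have h2 := hcomm _ h1
      rw [hψm, hww] at h2
      exact mul_right_cancel₀ hw0 h2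
    have hall : ∀ q, ψ q = q := by
      intro q
      have h1 : ψ ((2 : ℝ) • q) = (2 : ℝ) • q := by
        rw [hdec, hψa, hcomm _ (hplus q), hfix _ (hminus q)]
      have h2 : ψ ((2 : ℝ) • q) = (2 : ℝ) • ψ q := by
        rw [← Quaternion.coe_mul_eq_smul, hψm, hψr, Quaternion.coe_mul_eq_smul]
      rw [h2] at h1
      exact smul_right_injective _ (two_ne_zero) h1
    apply hx
    have := hall (star x)
    simp only [hψ, star_star] at this
    exact this
  have hmain : ∀ q, ψ q = b * q * b⁻¹ := by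
    intro q
    have h1 : ψ ((2 : ℝ) • q) = (q - b * q * b) - (q + b * q * b) := by
      rw [hdec, hψa, hcomm _ (hplus q), hanti _ (hminus q), ← sub_eq_add_neg]
    have h2 : ψ ((2 : ℝ) • q) = (2 : ℝ) • ψ q := by
      rw [← Quaternion.coe_mul_eq_smul, hψm, hψr, Quaternion.coe_mul_eq_smul]
    rw [h2] at h1
    apply smul_right_injective ℍ[ℝ] (two_ne_zero : (2 : ℝ) ≠ 0)
    simp only
    rw [h1, hinv, two_smul]
    noncomm_ring
  intro q
  have := hmain (star q)
  simp only [hψ, star_star] at this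
  exact this

variable {n : ℕ}

lemma phiForm_eq (h : IsNonstandardInvolution φ) {b : ℍ[ℝ]} (hb : φ b = -b) (hb1 : ‖b‖ = 1)
    (H A : Matrix (Fin n) (Fin n) ℍ[ℝ]) (x y : Fin n → ℍ[ℝ]) :
    b⁻¹ * phiForm φ (H * A) x y = starForm ((b⁻¹ • H) * A) x y := by
  obtain ⟨-, hbb, hφ⟩ := phi_eq h hb hb1
  have hb0 : b ≠ 0 := by
    rintro rfl
    rw [zero_mul] at hbb
    exact neg_ne_zero.2 one_ne_zero hbb.symm
  rw [phiForm, starForm, smul_mul_assoc, smul_mulVec]
  simp only [dotProduct, Finset.mul_sum, Pi.smul_apply, smul_eq_mul, Pi.star_apply]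
  refine Finset.sum_congr rfl fun i _ => ?_
  rw [hφ]
  rw [← mul_assoc, ← mul_assoc, ← mul_assoc, inv_mul_cancel₀ hb0, one_mul, mul_assoc]

lemma setting_of (h : IsNonstandardInvolution φ) {b : ℍ[ℝ]} (hb : φ b = -b) (hb1 : ‖b‖ = 1)
    {H A : Matrix (Fin n) (Fin n) ℍ[ℝ]} (hH : Hᵀ.map φ = H) (hA : H * A = -(Aᵀ.map φ * H)) :
    (b⁻¹ • H)ᴴ = -(b⁻¹ • H) ∧ (b⁻¹ • H) * A = -(Aᴴ * (b⁻¹ • H)) := by
  obtain ⟨hsb, hbb, hφ⟩ := phi_eq h hb hb1
  have hb0 : b ≠ 0 := by
    rintro rfl
    rw [zero_mul] at hbb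
    exact neg_ne_zero.2 one_ne_zero hbb.symm
  constructor
  · ext i j : 1
    have h1 := congrFun (congrFun hH i) j
    rw [map_apply, transpose_apply, hφ] at h1
    rw [conjTranspose_apply, Matrix.neg_apply, Matrix.smul_apply, Matrix.smul_apply, smul_eq_mul, smul_eq_mul,
      star_mul, star_inv₀, hsb, ← h1, inv_neg, mul_neg, ← mul_assoc, ← mul_assoc,
      inv_mul_cancel₀ hb0, one_mul]
  · rw [smul_mul_assoc, hA]
    ext i j : 1
    rw [Matrix.smul_apply, Matrix.neg_apply, Matrix.neg_apply, smul_eq_mul, mul_neg, mul_apply, mul_apply,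
      Finset.mul_sum]
    refine congrArg Neg.neg (Finset.sum_congr rfl fun k _ => ?_)
    rw [map_apply, transpose_apply, hφ, conjTranspose_apply, Matrix.smul_apply, smul_eq_mul,
      ← mul_assoc, ← mul_assoc, ← mul_assoc, inv_mul_cancel₀ hb0, one_mul, mul_assoc]

lemma isUnit_smul {b : ℍ[ℝ]} (hb0 : b ≠ 0) {H : Matrix (Fin n) (Fin n) ℍ[ℝ]} (hH : IsUnit H) :
    IsUnit (b⁻¹ • H) := by
  have h1 : b⁻¹ • H = (b⁻¹ • (1 : Matrix (Fin n) (Fin n) ℍ[ℝ])) * H := by
    rw [smul_mul_assoc, one_mul]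
  rw [h1]
  refine IsUnit.mul ?_ hH
  refine ⟨⟨b⁻¹ • 1, b • 1, ?_, ?_⟩, rfl⟩
  · rw [smul_mul_assoc, one_mul, smul_smul, inv_mul_cancel₀ hb0, one_smul]
  · rw [smul_mul_assoc, one_mul, smul_smul, mul_inv_cancel₀ hb0, one_smul]

end Q7.QuatHam
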