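import Mathlib

/-!
# Real closed fields: irreducible polynomials and the intermediate value theorem

For `IsRealClosed R` (Mathlib's definition: squares and odd degree polynomials) on a linearly
ordered field we prove that irreducible polynomials have degree at most `2`, and the intermediate
value property of polynomials.
-/

set_option autoImplicit false

namespace Q7.RCF

open Polynomial Module

section Squares

/-- A field of characteristic not two all of whose elements are squares has no quadratic
extension. -/
lemma no_quadratic {E E' : Type*} [Field E] [Field E'] [Algebra E E'] (h2 : (2 : E) ≠ 0)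
    (hsq : ∀ x : E, IsSquare x) : finrank E E' ≠ 2 := by
  intro h
  have hfin : FiniteDimensional E E' := FiniteDimensional.of_finrank_pos (by omega)
  have hne : ∃ x : E', x ∉ (algebraMap E E').range := by
    by_contra hcon
    push Not at hcon
    have h1 : (⊥ : Subalgebra E E') = ⊤ := by
      rw [eq_top_iff]
      intro x _
      obtain ⟨y, hy⟩ := hcon x
      exact ⟨y, hy⟩
    have h2 := Subalgebra.bot_eq_top_iff_finrank_eq_one.1 h1
    omega
  obtain ⟨x, hx⟩ := hne
  apply hx
  have hint : IsIntegral E x := IsIntegral.of_finite E x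
  have hdeg : (minpoly E x).natDegree ≤ 2 := h ▸ minpoly.natDegree_le x
  have hmon := minpoly.monic hint
  have hpos := minpoly.natDegree_pos hint
  have haeval := minpoly.aeval E x
  rcases Nat.lt_or_ge (minpoly E x).natDegree 2 with h1 | h1
  · have : (minpoly E x).natDegree = 1 := by omega
    rwa [← minpoly.natDegree_eq_one_iff]
  · have hd : (minpoly E x).natDegree = 2 := by omega
    rw [aeval_eq_sum_range, hd] at haeval
    have hc2 : (minpoly E x).coeff 2 = 1 := by
      rw [← hd]; exact hmon
    simp only [Finset.sum_range_succ, Finset.sum_range_zero, zero_add, hc2, pow_zero, pow_one,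
      one_smul] at haeval
    set b := (minpoly E x).coeff 1
    set c := (minpoly E x).coeff 0
    obtain ⟨s, hs⟩ := hsq (b ^ 2 / 4 - c)
    have h4 : (4 : E) ≠ 0 := by
      have : (4 : E) = 2 * 2 := by norm_num
      rw [this]; exact mul_ne_zero h2 h2
    have e1 : (x + algebraMap E E' (b / 2)) ^ 2 = (algebraMap E E' s) ^ 2 := by
      have e2 : algebraMap E E' (b / 2) * 2 = algebraMap E E' b := by
        rw [← map_ofNat (algebraMap E E') 2, ← map_mul, div_mul_cancel₀ _ h2]
      have e3 : algebraMap E E' (b / 2) ^ 2 - algebraMap E E' c = (algebraMap E E' s) ^ 2 := by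
        rw [← map_pow, ← map_pow, ← map_sub]
        congr 1
        rw [sq s, ← hs]
        congr 1
        field_simp
        norm_num
      rw [Algebra.smul_def, Algebra.smul_def, mul_one] at haeval
      linear_combination haeval + e3 + x * e2
    rcases sq_eq_sq_iff_eq_or_eq_neg.1 e1 with h | h
    · exact ⟨s - b / 2, by rw [map_sub]; linear_combination -h⟩
    · exact ⟨-s - b / 2, by rw [map_sub, map_neg]; linear_combination -h⟩

variable {R : Type*} [Field R] [LinearOrder R] [IsStrictOrderedRing R] [IsRealClosed R]

lemma exists_sqrt {x : R} (hx : 0 ≤ x) : ∃ r : R, 0 ≤ r ∧ r ^ 2 = x := by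
  obtain ⟨r, hr⟩ := IsRealClosed.nonneg_iff_isSquare.1 hx
  exact ⟨|r|, abs_nonneg r, by rw [sq_abs, hr, sq]⟩

/-- In a quadratic extension of a real closed field every element is a square. -/
lemma isSquare_of_quadratic {E : Type*} [Field E] [Algebra R E] (h : finrank R E = 2) (z : E) :
    IsSquare z := by
  have hfin : FiniteDimensional R E := FiniteDimensional.of_finrank_pos (by omega)
  have hne : ∃ x : E, x ∉ (algebraMap R E).range := by
    by_contra hcon
    push Not at hcon
    have h1 : (⊥ : Subalgebra R E) = ⊤ := by
      rw [eq_top_iff]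
      intro x _
      obtain ⟨y, hy⟩ := hcon x
      exact ⟨y, hy⟩
    have h2 := Subalgebra.bot_eq_top_iff_finrank_eq_one.1 h1
    omega
  obtain ⟨x, hx⟩ := hne
  have hint : IsIntegral R x := IsIntegral.of_finite R x
  have hdeg : (minpoly R x).natDegree ≤ 2 := h ▸ minpoly.natDegree_le x
  have hmon := minpoly.monic hint
  have hpos := minpoly.natDegree_pos hint
  have haeval := minpoly.aeval R x
  have hd : (minpoly R x).natDegree = 2 := by
    rcases Nat.lt_or_ge (minpoly R x).natDegree 2 with h1 | h1
    · have : (minpoly R x).natDegree = 1 := by omega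
      exact absurd (minpoly.natDegree_eq_one_iff.1 this) hx
    · omega
  rw [aeval_eq_sum_range, hd] at haeval
  have hc2 : (minpoly R x).coeff 2 = 1 := by
    rw [← hd]; exact hmon
  simp only [Finset.sum_range_succ, Finset.sum_range_zero, zero_add, hc2, pow_zero, pow_one,
    one_smul] at haeval
  set b := (minpoly R x).coeff 1
  set c := (minpoly R x).coeff 0
  rw [Algebra.smul_def, Algebra.smul_def, mul_one] at haeval
  -- the discriminant
  set D := b ^ 2 / 4 - c with hD
  set y := x + algebraMap R E (b / 2) with hy
  have hy2 : y ^ 2 = algebraMap R E D := by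
    have e2 : algebraMap R E (b / 2) * 2 = algebraMap R E b := by
      rw [← map_ofNat (algebraMap R E) 2, ← map_mul, div_mul_cancel₀ _ two_ne_zero]
    have e3 : algebraMap R E (b / 2) ^ 2 - algebraMap R E c = algebraMap R E D := by
      rw [← map_pow, ← map_sub]
      congr 1
      rw [hD]; ring
    rw [hy]
    linear_combination haeval + e3 + x * e2
  have hyR : y ∉ (algebraMap R E).range := by
    rintro ⟨w, hw⟩
    exact hx ⟨w - b / 2, by rw [map_sub, hw, hy]; ring⟩
  have hDneg : D < 0 := by
    by_contra hcon
    push Not at hcon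
    obtain ⟨r, -, hr⟩ := exists_sqrt hcon
    rw [← hr, map_pow] at hy2
    rcases sq_eq_sq_iff_eq_or_eq_neg.1 hy2 with h | h
    · exact hyR ⟨r, h.symm⟩
    · exact hyR ⟨-r, by rw [map_neg]; exact h.symm⟩
  obtain ⟨r, hr0, hr⟩ := exists_sqrt (neg_nonneg.2 hDneg.le)
  have hrne : r ≠ 0 := by
    rintro rfl
    rw [zero_pow two_ne_zero] at hr
    linarith
  have hrne' : algebraMap R E r ≠ 0 := by
    rwa [Ne, map_eq_zero]
  set i := y / algebraMap R E r with hi
  have hi2 : i ^ 2 = -1 := by
    rw [hi, div_pow, hy2, ← map_pow, hr, map_neg, div_neg, div_self]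
    rw [Ne, map_eq_zero]
    exact hDneg.ne
  have hiR : i ∉ (algebraMap R E).range := by
    rintro ⟨w, hw⟩
    exact hyR ⟨w * r, by rw [map_mul, hw, hi, div_mul_cancel₀ _ hrne']⟩
  -- `1, i` is a basis
  have hli : LinearIndependent R ![(1 : E), i] := by
    rw [LinearIndependent.pair_iff]
    intro p q hpq
    have hq : q = 0 := by
      by_contra hq
      apply hiR
      refine ⟨-p / q, ?_⟩
      have hq' : algebraMap R E q ≠ 0 := by rwa [Ne, map_eq_zero]
      rw [Algebra.smul_def, Algebra.smul_def, mul_one] at hpq
      rw [map_div₀, map_neg, div_eq_iff hq']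
      linear_combination -hpq
    refine ⟨?_, hq⟩
    rw [hq, zero_smul, add_zero, Algebra.smul_def, mul_one, map_eq_zero] at hpq
    exact hpq
  have hspan : Submodule.span R (Set.range ![(1 : E), i]) = ⊤ :=
    hli.span_eq_top_of_card_eq_finrank' (by simp [h])
  have hz : z ∈ Submodule.span R (Set.range ![(1 : E), i]) := by
    rw [hspan]; trivial
  rw [Matrix.range_cons, Matrix.range_cons, Matrix.range_empty, Set.union_empty,
    Set.singleton_union, Submodule.mem_span_pair] at hz
  obtain ⟨p, q, hpq⟩ := hz
  rw [Algebra.smul_def, Algebra.smul_def, mul_one] at hpq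
  obtain ⟨n, hn0, hn⟩ := exists_sqrt (add_nonneg (sq_nonneg p) (sq_nonneg q))
  have hnp : |p| ≤ n := by
    apply abs_le_of_sq_le_sq _ hn0
    rw [hn]
    nlinarith [sq_nonneg q]
  have hnp1 := (abs_le.1 hnp).1
  have hnp2 := (abs_le.1 hnp).2
  obtain ⟨u, hu0, hu⟩ := exists_sqrt (show 0 ≤ (n + p) / 2 by linarith)
  obtain ⟨v, hv0, hv⟩ := exists_sqrt (show 0 ≤ (n - p) / 2 by linarith)
  have huv : (2 * u * v) ^ 2 = q ^ 2 := by
    rw [mul_pow, mul_pow, hu, hv]
    linear_combination hn
  have key : ∀ s : R, s ^ 2 = 1 → s * (2 * u * v) = q → IsSquare z := by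
    intro s hs hsq
    refine ⟨algebraMap R E u + algebraMap R E (s * v) * i, ?_⟩
    have e1 : algebraMap R E p = algebraMap R E u ^ 2 - algebraMap R E (s * v) ^ 2 := by
      rw [← map_pow, ← map_pow, ← map_sub]
      congr 1
      rw [mul_pow, hs, hu, hv]; ring
    have e2 : algebraMap R E q = 2 * algebraMap R E u * algebraMap R E (s * v) := by
      rw [← map_ofNat (algebraMap R E) 2, ← map_mul, ← map_mul]
      congr 1
      rw [← hsq]; ring
    rw [← hpq, e1, e2]
    linear_combination (-(algebraMap R E (s * v)) ^ 2) * hi2
  rcases sq_eq_sq_iff_eq_or_eq_neg.1 huv with h | h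
  · exact key 1 (by norm_num) (by rw [one_mul, h])
  · exact key (-1) (by norm_num) (by rw [h]; ring)

end Squares

section Galois

/-- The fixed field of a subgroup `H` has degree the index of `H`. -/
lemma finrank_fixedField {F L : Type*} [Field F] [Field L] [Algebra F L] [FiniteDimensional F L]
    [IsGalois F L] (H : Subgroup (L ≃ₐ[F] L)) :
    finrank F (IntermediateField.fixedField H) = H.index := by
  rw [IntermediateField.finrank_eq_fixingSubgroup_index,
    IntermediateField.fixingSubgroup_fixedField]

/-- A Galois extension of degree `2 ^ (k + 1)` contains a quadratic extension. -/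
lemma exists_quadratic {F L : Type*} [Field F] [Field L] [Algebra F L] [FiniteDimensional F L]
    [IsGalois F L] {k : ℕ} (h : finrank F L = 2 ^ (k + 1)) :
    ∃ E : IntermediateField F L, finrank F E = 2 := by
  have hcard : Nat.card (L ≃ₐ[F] L) = 2 ^ (k + 1) := by
    rw [IsGalois.card_aut_eq_finrank, h]
  have : Fact (Nat.Prime 2) := ⟨Nat.prime_two⟩
  obtain ⟨H, hH⟩ := Sylow.exists_subgroup_card_pow_prime (G := (L ≃ₐ[F] L)) 2 (n := k)
    (by rw [hcard]; exact pow_dvd_pow _ (Nat.le_succ _))
  refine ⟨IntermediateField.fixedField H, ?_⟩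
  rw [finrank_fixedField]
  have h1 := H.card_mul_index
  rw [hH, hcard, pow_succ] at h1
  exact Nat.eq_of_mul_eq_mul_left (by positivity) h1

variable {R : Type*} [Field R] [LinearOrder R] [IsStrictOrderedRing R] [IsRealClosed R]

/-- A real closed field has no proper extension of odd degree. -/
lemma finrank_eq_one_of_odd {M : Type*} [Field M] [Algebra R M] [FiniteDimensional R M]
    (h : Odd (finrank R M)) : finrank R M = 1 := by
  obtain ⟨α, hα⟩ := Field.exists_primitive_element R M
  have hint : IsIntegral R α := IsIntegral.of_finite R α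
  have h1 : finrank R M = (minpoly R α).natDegree := by
    rw [← IntermediateField.adjoin.finrank hint, hα, IntermediateField.finrank_top']
  rw [h1] at h ⊢
  obtain ⟨x, hx⟩ := IsRealClosed.exists_isRoot_of_odd_natDegree h
  exact natDegree_eq_of_degree_eq_some
    (degree_eq_one_of_irreducible_of_root (minpoly.irreducible hint) hx)

/-- A finite Galois extension of a real closed field has degree at most `2`. -/
lemma finrank_le_two (L : Type*) [Field L] [Algebra R L] [FiniteDimensional R L]
    [IsGalois R L] : finrank R L ≤ 2 := by
  have : Fact (Nat.Prime 2) := ⟨Nat.prime_two⟩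
  let P : Sylow 2 (L ≃ₐ[R] L) := default
  have h1 := P.not_dvd_index
  have h2 := finrank_fixedField (P : Subgroup (L ≃ₐ[R] L))
  have h3 : (P : Subgroup (L ≃ₐ[R] L)).index = 1 := by
    rw [← h2]
    apply finrank_eq_one_of_odd
    rw [h2, ← Nat.not_even_iff_odd, even_iff_two_dvd]
    exact h1
  have h4 := (P : Subgroup (L ≃ₐ[R] L)).card_mul_index
  rw [h3, mul_one, IsGalois.card_aut_eq_finrank] at h4
  have h5 := P.card_eq_multiplicity
  set k := (Nat.card (L ≃ₐ[R] L)).factorization 2 with hk
  have h6 : finrank R L = 2 ^ k := by rw [← h4]; exact h5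
  clear_value k
  rcases k with _ | _ | k
  · omega
  · omega
  · exfalso
    obtain ⟨E, hE⟩ := exists_quadratic (F := R) (L := L) h6
    have h7 : finrank E L = 2 ^ (k + 1) := by
      have h8 := finrank_mul_finrank R E L
      rw [hE, h6] at h8
      have : 2 * finrank E L = 2 * 2 ^ (k + 1) := by rw [h8]; ring
      omega
    obtain ⟨E', hE'⟩ := exists_quadratic (F := E) (L := L) h7
    have hE2 : (2 : E) ≠ 0 := by
      have : CharZero E := charZero_of_injective_algebraMap (algebraMap R E).injective
      exact two_ne_zero
    exact no_quadratic hE2 (isSquare_of_quadratic hE) hE'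

/-- Irreducible polynomials over a real closed field have degree at most `2`. -/
lemma natDegree_le_two {f : R[X]} (hf : Irreducible f) : f.natDegree ≤ 2 := by
  have hsep : f.Separable := hf.separable
  have hgal : IsGalois R f.SplittingField := IsGalois.of_separable_splitting_field hsep
  have hspl := SplittingField.splits f
  have hdeg : (f.map (algebraMap R f.SplittingField)).degree ≠ 0 := by
    rw [degree_map]
    exact (degree_pos_of_irreducible hf).ne'
  have hroot := eval_rootOfSplits hspl hdeg
  set α := rootOfSplits hspl hdeg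
  have hint : IsIntegral R α := IsIntegral.of_finite R α
  have h1 : aeval α f = 0 := by
    rw [← hroot, eval_map_algebraMap]
  have h2 : minpoly R α = f * C (f.leadingCoeff)⁻¹ := (minpoly.eq_of_irreducible hf h1).symm
  have h3 : (minpoly R α).natDegree = f.natDegree := by
    rw [h2, natDegree_mul_C]
    exact inv_ne_zero (leadingCoeff_ne_zero.2 hf.ne_zero)
  rw [← h3]
  exact (minpoly.natDegree_le α).trans (finrank_le_two _)

/-- The intermediate value theorem for polynomials over a real closed field. -/
theorem exists_root {f : R[X]} {a b : R} (hab : a < b) (hf : f.eval a * f.eval b < 0) :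
    ∃ c, a < c ∧ c < b ∧ f.eval c = 0 := by
  induction f using WfDvdMonoid.induction_on_irreducible with
  | zero => simp at hf
  | unit u hu =>
    obtain ⟨r, -, hr⟩ := isUnit_iff.1 hu
    rw [← hr, eval_C, eval_C] at hf
    exact absurd hf (not_lt.2 (mul_self_nonneg r))
  | mul g i hg hi ih =>
    rw [eval_mul, eval_mul] at hf
    by_cases h1 : g.eval a * g.eval b < 0
    · obtain ⟨c, hc1, hc2, hc3⟩ := ih h1
      exact ⟨c, hc1, hc2, by rw [eval_mul, hc3, mul_zero]⟩
    · have h2 : i.eval a * i.eval b < 0 := by
        push Not at h1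
        by_contra h3
        push Not at h3
        have := mul_nonneg h3 h1
        have e : i.eval a * i.eval b * (g.eval a * g.eval b) =
          i.eval a * g.eval a * (i.eval b * g.eval b) := by ring
        rw [e] at this
        exact absurd hf (not_lt.2 this)
      suffices ∃ c, a < c ∧ c < b ∧ i.eval c = 0 by
        obtain ⟨c, hc1, hc2, hc3⟩ := this
        exact ⟨c, hc1, hc2, by rw [eval_mul, hc3, zero_mul]⟩
      have hdeg := natDegree_le_two hi
      have hpos := hi.natDegree_pos
      have heval : ∀ x, i.eval x = i.coeff 2 * x ^ 2 + i.coeff 1 * x + i.coeff 0 := by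
        intro x
        rw [eval_eq_sum_range' (n := 3) (by omega)]
        simp only [Finset.sum_range_succ, Finset.sum_range_zero]
        ring
      rw [heval, heval] at h2
      rcases Nat.lt_or_ge i.natDegree 2 with h3 | h3
      · -- degree one
        have hc2 : i.coeff 2 = 0 := coeff_eq_zero_of_natDegree_lt h3
        have hc1 : i.coeff 1 ≠ 0 := by
          have h4 : i.natDegree = 1 := by omega
          rw [← h4]
          exact leadingCoeff_ne_zero.2 hi.ne_zero
        set α := i.coeff 1
        set γ := i.coeff 0
        rw [hc2] at h2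
        have hr : i.eval (-γ / α) = 0 := by
          rw [heval, hc2]
          field_simp
          ring
        have h5 : (a - -γ / α) * (b - -γ / α) < 0 := by
          have h6 : (0 * a ^ 2 + α * a + γ) * (0 * b ^ 2 + α * b + γ) =
              α ^ 2 * ((a - -γ / α) * (b - -γ / α)) := by
            field_simp
            ring
          rw [h6] at h2
          exact (pos_iff_neg_of_mul_neg h2).1 (by positivity)
        refine ⟨-γ / α, ?_, ?_, hr⟩
        · by_contra h6
          push Not at h6
          nlinarith
        · by_contra h6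
          push Not at h6
          nlinarith
      · -- degree two: constant sign
        exfalso
        have h4 : i.natDegree = 2 := by omega
        have hα : i.coeff 2 ≠ 0 := by
          rw [← h4]
          exact leadingCoeff_ne_zero.2 hi.ne_zero
        set α := i.coeff 2
        set β := i.coeff 1
        set γ := i.coeff 0
        have hdisc : β ^ 2 - 4 * α * γ < 0 := by
          by_contra h5
          push Not at h5
          obtain ⟨r, -, hr⟩ := exists_sqrt h5
          have h6 : i.eval ((-β + r) / (2 * α)) = 0 := by
            rw [heval]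
            field_simp
            linear_combination hr
          have h7 : i.natDegree = 1 :=
            natDegree_eq_of_degree_eq_some (degree_eq_one_of_irreducible_of_root hi h6)
          omega
        have hsgn : ∀ x, 0 < 4 * α * (α * x ^ 2 + β * x + γ) := by
          intro x
          nlinarith [sq_nonneg (2 * α * x + β)]
        have h8 := mul_pos (hsgn a) (hsgn b)
        have h9 : 4 * α * (α * a ^ 2 + β * a + γ) * (4 * α * (α * b ^ 2 + β * b + γ)) =
          16 * α ^ 2 * ((α * a ^ 2 + β * a + γ) * (α * b ^ 2 + β * b + γ)) := by ring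
        rw [h9] at h8
        have h10 : 0 < 16 * α ^ 2 := by positivity
        exact absurd h2 (not_lt.2 ((mul_pos_iff_of_pos_left h10).1 h8).le)

end Galois

end Q7.RCF
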