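import Mathlib

/-!
# The `sl₂`-module of dimension `d + 1` and Leonard triples

The generators `e, f, h` of `sl₂` act on `K ^ (d + 1)`; the coefficient vectors of
`ℓ₁ ^ j * ℓ₂ ^ (d - j)` for two linear forms `ℓ₁, ℓ₂` are used to change bases.
-/

set_option autoImplicit false
set_option linter.unusedSectionVars false

namespace Q7.Sl2

open Matrix Polynomial

variable {K : Type*} [Field K]

/-- A square matrix is irreducible tridiagonal: the entries `(i, j)` with `|i - j| > 1` are zero,
and the entries `(i, j)` with `|i - j| = 1` are nonzero. -/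
def IsIrredTridiag {n : ℕ} (M : Matrix (Fin n) (Fin n) K) : Prop :=
  ∀ i j : Fin n, (((i : ℕ) + 1 < j ∨ (j : ℕ) + 1 < i) → M i j = 0) ∧
    (((i : ℕ) + 1 = j ∨ (j : ℕ) + 1 = i) → M i j ≠ 0)

variable (K) in
/-- `e`: the entries `(i, i + 1)` are `d - i`, the others zero. -/
def matE (d : ℕ) : Matrix (Fin (d + 1)) (Fin (d + 1)) K :=
  Matrix.of fun i j => if (i : ℕ) + 1 = j then (d : K) - (i : ℕ) else 0

variable (K) in
/-- `f`: the entries `(i + 1, i)` are `i + 1`, the others zero. -/
def matF (d : ℕ) : Matrix (Fin (d + 1)) (Fin (d + 1)) K :=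
  Matrix.of fun i j => if (j : ℕ) + 1 = i then ((j : ℕ) : K) + 1 else 0

variable (K) in
/-- `h = diag(d, d - 2, …, -d)`. -/
def matH (d : ℕ) : Matrix (Fin (d + 1)) (Fin (d + 1)) K :=
  Matrix.diagonal fun i => (d : K) - 2 * (i : ℕ)

/-- The vector of the coefficients of `p`, divided by binomial coefficients. -/
noncomputable def vec (d : ℕ) (p : K[X]) : Fin (d + 1) → K :=
  fun i => p.coeff i / (d.choose i : K)

lemma vec_add (d : ℕ) (p q : K[X]) : vec d (p + q) = vec d p + vec d q := by
  ext i; simp [vec, add_div]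

lemma vec_smul (d : ℕ) (c : K) (q : K[X]) : vec d (C c * q) = c • vec d q := by
  ext i; simp [vec, mul_div_assoc]

variable [CharZero K]

lemma choose_ne_zero {d i : ℕ} (h : i ≤ d) : (d.choose i : K) ≠ 0 :=
  Nat.cast_ne_zero.2 (Nat.choose_pos h).ne'

lemma coeff_X_mul_derivative (p : K[X]) (n : ℕ) :
    (X * derivative p).coeff n = n * p.coeff n := by
  cases n with
  | zero => simp
  | succ n =>
    rw [coeff_X_mul, coeff_derivative]
    push_cast
    ring

lemma choose_identity {d i : ℕ} (h : i ≤ d) :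
    ((d : K) - i) * (d.choose i : K) = (i + 1) * (d.choose (i + 1) : K) := by
  have h1 := Nat.choose_succ_right_eq d i
  have h2 : ((d.choose (i + 1) * (i + 1) : ℕ) : K) = ((d.choose i * (d - i) : ℕ) : K) := by
    rw [h1]
  rw [Nat.cast_mul, Nat.cast_mul, Nat.cast_sub h] at h2
  push_cast at h2
  linear_combination -h2

/-- `e` acts as `p ↦ p'`. -/
lemma matE_mulVec (d : ℕ) (p : K[X]) (hp : p.natDegree ≤ d) :
    matE K d *ᵥ vec d p = vec d (derivative p) := by
  ext i
  obtain ⟨i, hi⟩ := i
  have h1 : (matE K d *ᵥ vec d p) ⟨i, hi⟩ = ∑ j ∈ Finset.range (d + 1),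
      (if i + 1 = j then ((d : K) - i) * (p.coeff j / (d.choose j : K)) else 0) := by
    rw [← Fin.sum_univ_eq_sum_range (fun j =>
      (if i + 1 = j then ((d : K) - i) * (p.coeff j / (d.choose j : K)) else 0)) (d + 1)]
    rw [mulVec, dotProduct]
    refine Finset.sum_congr rfl fun j _ => ?_
    simp only [matE, of_apply, vec]
    split_ifs with h1
    · simp
    · simp
  rw [h1, Finset.sum_ite_eq]
  simp only [vec, coeff_derivative]
  rcases Nat.lt_or_ge i d with h | h
  · rw [if_pos (by simpa using h)]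
    have e := choose_identity (K := K) (d := d) (i := i) (by omega)
    have c1 : (d.choose i : K) ≠ 0 := choose_ne_zero (by omega)
    have c2 : (d.choose (i + 1) : K) ≠ 0 := choose_ne_zero (by omega)
    field_simp
    linear_combination (p.coeff (i + 1)) * e
  · rw [if_neg (by simpa using h), coeff_eq_zero_of_natDegree_lt (by omega)]
    simp

/-- `f` acts as `p ↦ t (d p - t p')`. -/
lemma matF_mulVec (d : ℕ) (p : K[X]) :
    matF K d *ᵥ vec d p = vec d (X * (C (d : K) * p - X * derivative p)) := by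
  ext i
  obtain ⟨i, hi⟩ := i
  have h1 : (matF K d *ᵥ vec d p) ⟨i, hi⟩ = ∑ j ∈ Finset.range (d + 1),
      (if j + 1 = i then ((j : K) + 1) * (p.coeff j / (d.choose j : K)) else 0) := by
    rw [← Fin.sum_univ_eq_sum_range (fun j =>
      (if j + 1 = i then ((j : K) + 1) * (p.coeff j / (d.choose j : K)) else 0)) (d + 1)]
    rw [mulVec, dotProduct]
    refine Finset.sum_congr rfl fun j _ => ?_
    simp only [matF, of_apply, vec]
    split_ifs with h1
    · simp
    · simp
  rw [h1]
  simp only [vec]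
  cases i with
  | zero => simp
  | succ i =>
    have : ∀ j, (j + 1 = i + 1) = (i = j) := fun j => by
      simp [eq_comm]
    simp only [this]
    rw [Finset.sum_ite_eq, if_pos (by simp; omega)]
    have e := choose_identity (K := K) (d := d) (i := i) (by omega)
    have c1 : (d.choose i : K) ≠ 0 := choose_ne_zero (by omega)
    have c2 : (d.choose (i + 1) : K) ≠ 0 := choose_ne_zero (by omega)
    rw [coeff_X_mul, coeff_sub, coeff_X_mul_derivative, coeff_C_mul]
    field_simp
    linear_combination -(p.coeff i) * e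

/-- `h` acts as `p ↦ (d p - t p') - t p'`. -/
lemma matH_mulVec (d : ℕ) (p : K[X]) :
    matH K d *ᵥ vec d p = vec d ((C (d : K) * p - X * derivative p) - X * derivative p) := by
  ext i
  rw [matH, mulVec_diagonal]
  simp only [vec, coeff_sub, coeff_X_mul_derivative, coeff_C_mul]
  ring

/-- The vectors `v j`, with `v j` the coefficient vector of `ℓ₁ ^ j * ℓ₂ ^ (d - j)`, where
`ℓ₁ = a + b t` and `ℓ₂ = c + e t`. -/
noncomputable def form (d : ℕ) (a b c e : K) (j : ℕ) : K[X] :=
  (C a + C b * X) ^ j * (C c + C e * X) ^ (d - j)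

lemma natDegree_form {d : ℕ} (a b c e : K) {j : ℕ} (hj : j ≤ d) :
    (form d a b c e j).natDegree ≤ d := by
  unfold form
  refine natDegree_mul_le.trans ?_
  have h1 : ((C a + C b * X) ^ j).natDegree ≤ j * 1 :=
    natDegree_pow_le_of_le j (by compute_degree)
  have h2 : ((C c + C e * X) ^ (d - j)).natDegree ≤ (d - j) * 1 :=
    natDegree_pow_le_of_le (d - j) (by compute_degree)
  omega

/-- The three-term expression by which a derivation acts on `form`. -/
lemma three_term {d : ℕ} (a b c e p q r s : K) {j : ℕ} (hj : j ≤ d) (m₁ m₂ : K[X])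
    (h₁ : m₁ = C p * (C a + C b * X) + C q * (C c + C e * X))
    (h₂ : m₂ = C r * (C a + C b * X) + C s * (C c + C e * X)) :
    C (j : K) * m₁ * ((C a + C b * X) ^ (j - 1) * (C c + C e * X) ^ (d - j)) +
      C ((d - j : ℕ) : K) * m₂ * ((C a + C b * X) ^ j * (C c + C e * X) ^ (d - j - 1)) =
    C (j * p + ((d - j : ℕ) : K) * s) * form d a b c e j +
      C (j * q) * form d a b c e (j - 1) +
      C (((d - j : ℕ) : K) * r) * form d a b c e (j + 1) := by
  subst h₁ h₂
  unfold form
  set l₁ := C a + C b * X with hl₁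
  set l₂ := C c + C e * X with hl₂
  have e1 : C (j : K) * (l₁ * l₁ ^ (j - 1)) = C (j : K) * l₁ ^ j := by
    cases j with
    | zero => simp
    | succ j => rw [Nat.add_sub_cancel, pow_succ']
  have e2 : C ((d - j : ℕ) : K) * (l₂ * l₂ ^ (d - j - 1)) =
      C ((d - j : ℕ) : K) * l₂ ^ (d - j) := by
    obtain ⟨k, hk⟩ : ∃ k, d - j = k := ⟨_, rfl⟩
    rw [hk]
    cases k with
    | zero => simp
    | succ k => rw [Nat.add_sub_cancel, pow_succ']
  have e3 : C (j : K) * (l₂ ^ (d - (j - 1))) = C (j : K) * (l₂ * l₂ ^ (d - j)) := by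
    cases j with
    | zero => simp
    | succ j =>
      rw [Nat.add_sub_cancel, ← pow_succ']
      congr 2
      omega
  have e4 : C ((d - j : ℕ) : K) * (l₁ ^ (j + 1) * l₂ ^ (d - (j + 1))) =
      C ((d - j : ℕ) : K) * (l₁ * l₁ ^ j * l₂ ^ (d - j - 1)) := by
    rw [pow_succ']
    rfl
  simp only [map_add, map_mul]
  linear_combination (C p * l₂ ^ (d - j)) * e1 + (C s * l₁ ^ j) * e2 -
    (C q * l₁ ^ (j - 1)) * e3 - C r * e4

lemma derivative_form {d : ℕ} (a b c e : K) (j : ℕ) :
    derivative (form d a b c e j) =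
      C (j : K) * C b * ((C a + C b * X) ^ (j - 1) * (C c + C e * X) ^ (d - j)) +
      C ((d - j : ℕ) : K) * C e *
        ((C a + C b * X) ^ j * (C c + C e * X) ^ (d - j - 1)) := by
  unfold form
  rw [derivative_mul, derivative_pow, derivative_pow]
  simp only [derivative_add, derivative_C, derivative_C_mul, derivative_X, mul_one, zero_add]
  ring

lemma euler_form {d : ℕ} (a b c e : K) {j : ℕ} (hj : j ≤ d) :
    C (d : K) * form d a b c e j - X * derivative (form d a b c e j) =
      C (j : K) * C a * ((C a + C b * X) ^ (j - 1) * (C c + C e * X) ^ (d - j)) +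
      C ((d - j : ℕ) : K) * C c *
        ((C a + C b * X) ^ j * (C c + C e * X) ^ (d - j - 1)) := by
  have key := three_term (K := K) (d := d) a b c e 1 0 0 1 hj (C a + C b * X) (C c + C e * X)
    (by simp) (by simp)
  have hd : (j : K) * 1 + ((d - j : ℕ) : K) * 1 = d := by
    rw [Nat.cast_sub hj]; ring
  rw [hd] at key
  simp only [mul_zero, map_zero, zero_mul, add_zero] at key
  rw [← key, derivative_form]
  ring

/-- The element `x e + y f + z h` of `sl₂`. -/
def comb (d : ℕ) (x y z : K) : Matrix (Fin (d + 1)) (Fin (d + 1)) K :=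
  x • matE K d + y • matF K d + z • matH K d

lemma comb_add (d : ℕ) (x y z x' y' z' : K) :
    comb d x y z + comb d x' y' z' = comb d (x + x') (y + y') (z + z') := by
  unfold comb
  module

/-- The three-term action on a family of vectors. -/
def Acts {d : ℕ} (M : Matrix (Fin (d + 1)) (Fin (d + 1)) K) (v : ℕ → Fin (d + 1) → K)
    (p q r s : K) : Prop :=
  ∀ j ≤ d, M *ᵥ v j = (j * p + ((d - j : ℕ) : K) * s) • v j + (j * q) • v (j - 1) +
    (((d - j : ℕ) : K) * r) • v (j + 1)

/-- The action of `x e + y f + z h` on the vectors of the forms. -/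
lemma comb_acts {d : ℕ} {a b c e p q r s x y z : K}
    (h₁ : z * a + x * b = p * a + q * c) (h₁' : y * a - z * b = p * b + q * e)
    (h₂ : z * c + x * e = r * a + s * c) (h₂' : y * c - z * e = r * b + s * e) :
    Acts (comb d x y z) (fun j => vec d (form d a b c e j)) p q r s := by
  intro j hj
  have g₁ : C z * C a + C x * C b = C p * C a + C q * C c := by
    simp only [← C_mul, ← C_add, h₁]
  have g₁' : C y * C a - C z * C b = C p * C b + C q * C e := by
    simp only [← C_mul, ← C_add, ← C_sub, h₁']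
  have g₂ : C z * C c + C x * C e = C r * C a + C s * C c := by
    simp only [← C_mul, ← C_add, h₂]
  have g₂' : C y * C c - C z * C e = C r * C b + C s * C e := by
    simp only [← C_mul, ← C_add, ← C_sub, h₂']
  dsimp only
  rw [comb, add_mulVec, add_mulVec, smul_mulVec, smul_mulVec, smul_mulVec,
    matE_mulVec d _ (natDegree_form a b c e hj), matF_mulVec, matH_mulVec,
    euler_form a b c e hj, derivative_form,
    ← vec_smul, ← vec_smul, ← vec_smul, ← vec_smul, ← vec_smul, ← vec_smul, ← vec_add, ← vec_add,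
    ← vec_add, ← vec_add,
    ← three_term a b c e p q r s hj (C z * C a + C x * C b + (C y * C a - C z * C b) * X)
      (C z * C c + C x * C e + (C y * C c - C z * C e) * X)]
  · congr 1
    ring
  · linear_combination g₁ + X * g₁'
  · linear_combination g₂ + X * g₂'

lemma vec_form_ne_zero {d : ℕ} (a b c e : K) (h₁ : C a + C b * X ≠ 0)
    (h₂ : C c + C e * X ≠ 0) {j : ℕ} (hj : j ≤ d) : vec d (form d a b c e j) ≠ 0 := by
  intro h
  have hf : form d a b c e j ≠ 0 := mul_ne_zero (pow_ne_zero _ h₁) (pow_ne_zero _ h₂)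
  apply hf
  ext i
  rcases Nat.lt_or_ge i (d + 1) with hi | hi
  · have := congrFun h ⟨i, hi⟩
    simp only [vec, Pi.zero_apply, div_eq_zero_iff] at this
    rcases this with h | h
    · simpa using h
    · exact absurd h (choose_ne_zero (by omega))
  · rw [coeff_eq_zero_of_natDegree_lt ((natDegree_form a b c e hj).trans_lt hi), coeff_zero]

/-- The vectors `v 0, …, v d` form a basis if they are nonzero and are eigenvectors for distinct
eigenvalues. -/
lemma exists_basis {d : ℕ} {M : Matrix (Fin (d + 1)) (Fin (d + 1)) K}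
    {v : ℕ → Fin (d + 1) → K} {p s : K} (h : Acts M v p 0 0 s) (hps : p ≠ s)
    (hv : ∀ j ≤ d, v j ≠ 0) :
    ∃ b : Module.Basis (Fin (d + 1)) K (Fin (d + 1) → K), ∀ j, b j = v j := by
  have hev : ∀ j : Fin (d + 1), Module.End.HasEigenvector M.mulVecLin
      ((j : ℕ) * p + ((d - j : ℕ) : K) * s) (v j) := by
    intro j
    have hj : (j : ℕ) ≤ d := by omega
    refine ⟨?_, hv j hj⟩
    rw [Module.End.mem_eigenspace_iff]
    simpa using h j hj
  have hinj : Function.Injective fun j : Fin (d + 1) =>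
      ((j : ℕ) : K) * p + ((d - j : ℕ) : K) * s := by
    intro i j hij
    have hi : (i : ℕ) ≤ d := by omega
    have hj : (j : ℕ) ≤ d := by omega
    simp only [Nat.cast_sub hi, Nat.cast_sub hj] at hij
    have : (((i : ℕ) : K) - (j : ℕ)) * (p - s) = 0 := by linear_combination hij
    rcases mul_eq_zero.1 this with h | h
    · exact Fin.ext (Nat.cast_injective (sub_eq_zero.1 h))
    · exact absurd (sub_eq_zero.1 h) hps
  have hli := Module.End.eigenvectors_linearIndependent' M.mulVecLin _ hinj _ hev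
  refine ⟨basisOfLinearIndependentOfCardEqFinrank hli (by simp), fun j => ?_⟩
  rw [coe_basisOfLinearIndependentOfCardEqFinrank]

lemma toMatrix_eq {d : ℕ} {M : Matrix (Fin (d + 1)) (Fin (d + 1)) K}
    {v : ℕ → Fin (d + 1) → K} {p q r s : K} (h : Acts M v p q r s)
    (b : Module.Basis (Fin (d + 1)) K (Fin (d + 1) → K)) (hb : ∀ j, b j = v j)
    (i j : Fin (d + 1)) :
    LinearMap.toMatrix b b M.mulVecLin i j =
      (if i = j then (j : ℕ) * p + ((d - j : ℕ) : K) * s else 0) +
      (if (i : ℕ) + 1 = j then (j : ℕ) * q else 0) +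
      (if (j : ℕ) + 1 = i then ((d - j : ℕ) : K) * r else 0) := by
  have hj : (j : ℕ) ≤ d := by omega
  rw [LinearMap.toMatrix_apply, hb, mulVecLin_apply, h j hj, map_add, map_add, map_smul, map_smul,
    map_smul, Finsupp.add_apply, Finsupp.add_apply, Finsupp.smul_apply, Finsupp.smul_apply,
    Finsupp.smul_apply, smul_eq_mul, smul_eq_mul, smul_eq_mul]
  congr 1
  · congr 1
    · rw [← hb, Module.Basis.repr_self, Finsupp.single_apply]
      split_ifs with h1 h2 h2
      · rw [mul_one]
      · exact absurd h1.symm h2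
      · exact absurd h2.symm h1
      · rw [mul_zero]
    · rcases Nat.eq_zero_or_pos (j : ℕ) with h0 | h0
      · rw [h0]
        simp
      · have e := hb ⟨(j : ℕ) - 1, by omega⟩
        rw [show v ((j : ℕ) - 1) = b ⟨(j : ℕ) - 1, by omega⟩ from e.symm,
          Module.Basis.repr_self, Finsupp.single_apply]
        have : (⟨(j : ℕ) - 1, by omega⟩ : Fin (d + 1)) = i ↔ (i : ℕ) + 1 = j := by
          rw [Fin.ext_iff]
          dsimp only
          omega
        simp only [this]
        split_ifs <;> simp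
  · rcases Nat.eq_or_lt_of_le hj with h0 | h0
    · have : (d - (j : ℕ) : ℕ) = 0 := by omega
      rw [this]
      simp
    · have e := hb ⟨(j : ℕ) + 1, by omega⟩
      rw [show v ((j : ℕ) + 1) = b ⟨(j : ℕ) + 1, by omega⟩ from e.symm,
        Module.Basis.repr_self, Finsupp.single_apply]
      have : (⟨(j : ℕ) + 1, by omega⟩ : Fin (d + 1)) = i ↔ (j : ℕ) + 1 = i := by
        rw [Fin.ext_iff]
      simp only [this]
      split_ifs <;> simp

lemma isDiag {d : ℕ} {M : Matrix (Fin (d + 1)) (Fin (d + 1)) K}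
    {v : ℕ → Fin (d + 1) → K} {p s : K} (h : Acts M v p 0 0 s)
    (b : Module.Basis (Fin (d + 1)) K (Fin (d + 1) → K)) (hb : ∀ j, b j = v j) :
    (LinearMap.toMatrix b b M.mulVecLin).IsDiag := by
  intro i j hij
  rw [toMatrix_eq h b hb, if_neg hij]
  simp

lemma isIrredTridiag {d : ℕ} {M : Matrix (Fin (d + 1)) (Fin (d + 1)) K}
    {v : ℕ → Fin (d + 1) → K} {p q r s : K} (h : Acts M v p q r s) (hq : q ≠ 0) (hr : r ≠ 0)
    (b : Module.Basis (Fin (d + 1)) K (Fin (d + 1) → K)) (hb : ∀ j, b j = v j) :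
    IsIrredTridiag (LinearMap.toMatrix b b M.mulVecLin) := by
  intro i j
  rw [toMatrix_eq h b hb]
  refine ⟨fun hij => ?_, fun hij => ?_⟩
  · rw [if_neg, if_neg, if_neg] <;> first | simp | skip
    · omega
    · omega
    · rw [Fin.ext_iff]; omega
  · have hne : i ≠ j := by
      rw [Ne, Fin.ext_iff]; omega
    rw [if_neg hne]
    rcases hij with hij | hij
    · rw [if_pos hij, if_neg (by omega)]
      simp only [zero_add, add_zero]
      exact mul_ne_zero (Nat.cast_ne_zero.2 (by omega)) hq
    · rw [if_neg (by omega), if_pos hij]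
      simp only [zero_add]
      exact mul_ne_zero (Nat.cast_ne_zero.2 (by omega)) hr

/-- A basis in which `M` is diagonal and `N₁`, `N₂` are irreducible tridiagonal. -/
lemma exists_basis_of_acts {d : ℕ} {M N₁ N₂ : Matrix (Fin (d + 1)) (Fin (d + 1)) K}
    {v : ℕ → Fin (d + 1) → K} {p s p₁ q₁ r₁ s₁ p₂ q₂ r₂ s₂ : K} (h : Acts M v p 0 0 s)
    (hps : p ≠ s) (hv : ∀ j ≤ d, v j ≠ 0)
    (h₁ : Acts N₁ v p₁ q₁ r₁ s₁) (hq₁ : q₁ ≠ 0) (hr₁ : r₁ ≠ 0)
    (h₂ : Acts N₂ v p₂ q₂ r₂ s₂) (hq₂ : q₂ ≠ 0) (hr₂ : r₂ ≠ 0) :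
    ∃ b : Module.Basis (Fin (d + 1)) K (Fin (d + 1) → K),
      (LinearMap.toMatrix b b M.mulVecLin).IsDiag ∧
        IsIrredTridiag (LinearMap.toMatrix b b N₁.mulVecLin) ∧
          IsIrredTridiag (LinearMap.toMatrix b b N₂.mulVecLin) := by
  obtain ⟨b, hb⟩ := exists_basis h hps hv
  exact ⟨b, isDiag h b hb, isIrredTridiag h₁ hq₁ hr₁ b hb, isIrredTridiag h₂ hq₂ hr₂ b hb⟩

lemma form_const_ne_zero {a b : K} (ha : a ≠ 0) : C a + C b * X ≠ 0 := by
  intro h
  have := congrArg (fun p => coeff p 0) h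
  simp at this
  exact ha this

lemma form_lin_ne_zero {a b : K} (hb : b ≠ 0) : C a + C b * X ≠ 0 := by
  intro h
  have := congrArg (fun p => coeff p 1) h
  simp at this
  exact hb this

end Q7.Sl2
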